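import Mathlib

open Finset

namespace Pool.Agent.Q298.Rset

/-- The sign attached to a Boolean. -/
def sg (b : Bool) : ℝ := if b then 1 else -1

lemma sg_beq (a b : Bool) : sg (a == b) = sg a * sg b := by
  cases a <;> cases b <;> simp [sg]

lemma sg_not (a : Bool) : sg (!a) = - sg a := by
  cases a <;> simp [sg]

lemma abs_sg (a : Bool) : |sg a| = 1 := by
  cases a <;> simp [sg]

lemma sg_mul_self (a : Bool) : sg a * sg a = 1 := by
  cases a <;> simp [sg]

lemma sg_true : sg true = 1 := rfl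

/-- Average over all sign patterns. -/
noncomputable def av {ι : Type*} [Fintype ι] [DecidableEq ι] (f : (ι → Bool) → ℝ) : ℝ :=
  (∑ ε, f ε) / 2 ^ Fintype.card ι

section basics
variable {ι : Type*} [Fintype ι] [DecidableEq ι]

lemma av_mono {f g : (ι → Bool) → ℝ} (h : ∀ ε, f ε ≤ g ε) : av f ≤ av g := by
  unfold av
  exact div_le_div_of_nonneg_right (Finset.sum_le_sum fun ε _ => h ε) (by positivity)

lemma av_nonneg {f : (ι → Bool) → ℝ} (h : ∀ ε, 0 ≤ f ε) : 0 ≤ av f := by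
  unfold av
  exact div_nonneg (Finset.sum_nonneg fun ε _ => h ε) (by positivity)

lemma av_add (f g : (ι → Bool) → ℝ) : av (fun ε => f ε + g ε) = av f + av g := by
  unfold av
  rw [Finset.sum_add_distrib, add_div]

lemma av_const (c : ℝ) : av (fun _ : ι → Bool => c) = c := by
  unfold av
  simp

lemma av_mul (c : ℝ) (f : (ι → Bool) → ℝ) : av (fun ε => c * f ε) = c * av f := by
  unfold av
  rw [← Finset.mul_sum, mul_div_assoc]

lemma av_sum {κ : Type*} (s : Finset κ) (f : κ → (ι → Bool) → ℝ) :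
    av (fun ε => ∑ k ∈ s, f k ε) = ∑ k ∈ s, av (f k) := by
  unfold av
  rw [Finset.sum_comm, Finset.sum_div]

lemma av_comm {κ : Type*} [Fintype κ] [DecidableEq κ] (f : (ι → Bool) → (κ → Bool) → ℝ) :
    av (fun ε => av (fun δ => f ε δ)) = av (fun δ => av (fun ε => f ε δ)) := by
  unfold av
  simp_rw [← Finset.sum_div]
  rw [Finset.sum_comm]
  field_simp

/-- Multiplying the signs by a fixed pattern does not change the average. -/
lemma av_flip (η : ι → Bool) (f : (ι → Bool) → ℝ) :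
    av (fun ε => f (fun i => (ε i == η i))) = av f := by
  unfold av
  have hinv : Function.Involutive (fun (ε : ι → Bool) => fun i => (ε i == η i)) := by
    intro ε
    funext i
    cases hε : ε i <;> cases hη : η i <;> simp [hε, hη]
  have := Equiv.sum_comp (hinv.toPerm _) f
  rw [← this]
  rfl

lemma av_neg (f : (ι → Bool) → ℝ) : av (fun ε => f (fun i => !(ε i))) = av f := by
  have := av_flip (fun _ => false) f
  rw [← this]
  congr 1
  funext ε
  congr 1
  funext i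
  cases ε i <;> rfl

/-- Marginal averages: averaging a function of a pulled back pattern. -/
lemma av_comp {κ : Type*} [Fintype κ] [DecidableEq κ] (e : κ → ι) (he : Function.Injective e)
    (g : (κ → Bool) → ℝ) :
    av (fun ε : ι → Bool => g (fun k => ε (e k))) = av g := by
  classical
  -- average over auxiliary flips of the image coordinates
  have h1 : av (fun ε : ι → Bool => g (fun k => ε (e k))) =
      av (fun δ : κ → Bool => av (fun ε : ι → Bool => g (fun k => (ε (e k) == δ k)))) := by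
    have : ∀ δ : κ → Bool, av (fun ε : ι → Bool => g (fun k => (ε (e k) == δ k))) =
        av (fun ε : ι → Bool => g (fun k => ε (e k))) := by
      intro δ
      have := av_flip (fun i => if h : ∃ k, e k = i then δ h.choose else true)
        (fun ε : ι → Bool => g (fun k => ε (e k)))
      rw [← this]
      congr 1
      funext ε
      congr 1
      funext k
      have hk : ∃ k', e k' = e k := ⟨k, rfl⟩
      show (ε (e k) == δ k) = (ε (e k) == if h : ∃ k', e k' = e k then δ h.choose else true)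
      rw [dif_pos hk]
      have : hk.choose = k := he hk.choose_spec
      rw [this]
    simp_rw [this]
    rw [av_const]
  rw [h1, av_comm]
  have h2 : ∀ ε : ι → Bool, av (fun δ : κ → Bool => g (fun k => (ε (e k) == δ k))) = av g := by
    intro ε
    have := av_flip (fun k => ε (e k)) g
    rw [← this]
    congr 1
    funext δ
    congr 1
    funext k
    cases ε (e k) <;> cases δ k <;> rfl
  simp_rw [h2]
  rw [av_const]

lemma av_sq_le (f : (ι → Bool) → ℝ) : (av f) ^ 2 ≤ av (fun ε => f ε ^ 2) := by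
  unfold av
  have h := sq_sum_le_card_mul_sum_sq (s := (Finset.univ : Finset (ι → Bool))) (f := f)
  have hc : (#(Finset.univ : Finset (ι → Bool)) : ℝ) = 2 ^ Fintype.card ι := by
    simp
  rw [hc] at h
  rw [div_pow, div_le_div_iff₀ (by positivity) (by positivity)]
  have hp : (0 : ℝ) < 2 ^ Fintype.card ι := by positivity
  nlinarith [mul_le_mul_of_nonneg_right h hp.le]

end basics

/-- Averages over sign patterns on a product. -/
lemma av_fin_succ {m : ℕ} (f : (Fin (m + 1) → Bool) → ℝ) :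
    av f = (av (fun ε : Fin m → Bool => f (Fin.cons true ε)) +
      av (fun ε : Fin m → Bool => f (Fin.cons false ε))) / 2 := by
  unfold av
  have h := Fintype.sum_equiv (Fin.consEquiv (fun _ : Fin (m + 1) => Bool))
    (fun p => f (Fin.cons p.1 p.2)) f (fun p => rfl)
  rw [← h, Fintype.sum_prod_type]
  rw [Fintype.sum_bool]
  simp only [Fintype.card_fin]
  rw [pow_succ]
  field_simp

section type2
variable {X : Type*} [NormedAddCommGroup X] [NormedSpace ℝ X]

/-- The second moment inequality with constant `c`. -/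
def T2 (X : Type*) [NormedAddCommGroup X] [NormedSpace ℝ X]
    (ι : Type) [Fintype ι] [DecidableEq ι] (c : ℝ) : Prop :=
  ∀ x : ι → X, av (fun ε => ‖∑ i, sg (ε i) • x i‖ ^ 2) ≤ c * Fintype.card ι * ∑ i, ‖x i‖ ^ 2

lemma T2.prod {ι κ : Type} [Fintype ι] [DecidableEq ι] [Fintype κ] [DecidableEq κ] {c c' : ℝ}
    (hc : 0 ≤ c) (h : T2 X ι c) (h' : T2 X κ c') : T2 X (ι × κ) (c * c') := by
  intro x
  have h1 : av (fun ε : ι × κ → Bool => ‖∑ p, sg (ε p) • x p‖ ^ 2) =
      av (fun ε : ι × κ → Bool => av (fun η : ι → Bool =>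
        ‖∑ i, sg (η i) • ∑ j, sg (ε (i, j)) • x (i, j)‖ ^ 2)) := by
    rw [av_comm]
    have : ∀ η : ι → Bool, av (fun ε : ι × κ → Bool =>
        ‖∑ i, sg (η i) • ∑ j, sg (ε (i, j)) • x (i, j)‖ ^ 2) =
        av (fun ε : ι × κ → Bool => ‖∑ p, sg (ε p) • x p‖ ^ 2) := by
      intro η
      have := av_flip (fun p : ι × κ => η p.1)
        (fun ε : ι × κ → Bool => ‖∑ p, sg (ε p) • x p‖ ^ 2)
      rw [← this]
      congr 1
      funext ε
      congr 2
      rw [Fintype.sum_prod_type]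
      refine Finset.sum_congr rfl fun i _ => ?_
      rw [Finset.smul_sum]
      refine Finset.sum_congr rfl fun j _ => ?_
      rw [sg_beq, smul_smul, mul_comm]
    simp_rw [this]
    rw [av_const]
  rw [h1]
  calc av (fun ε : ι × κ → Bool => av (fun η : ι → Bool =>
        ‖∑ i, sg (η i) • ∑ j, sg (ε (i, j)) • x (i, j)‖ ^ 2))
      ≤ av (fun ε : ι × κ → Bool => (c * Fintype.card ι) *
          ∑ i, ‖∑ j, sg (ε (i, j)) • x (i, j)‖ ^ 2) := av_mono fun ε => h _
    _ = (c * Fintype.card ι) * ∑ i, av (fun ε : ι × κ → Bool =>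
          ‖∑ j, sg (ε (i, j)) • x (i, j)‖ ^ 2) := by
        rw [av_mul, av_sum]
    _ = (c * Fintype.card ι) * ∑ i, av (fun δ : κ → Bool =>
          ‖∑ j, sg (δ j) • x (i, j)‖ ^ 2) := by
        congr 1
        refine Finset.sum_congr rfl fun i _ => ?_
        exact av_comp (fun j : κ => (i, j)) (fun a b hab => by simpa using hab)
          (fun δ : κ → Bool => ‖∑ j, sg (δ j) • x (i, j)‖ ^ 2)
    _ ≤ (c * Fintype.card ι) * ∑ i, c' * Fintype.card κ * ∑ j, ‖x (i, j)‖ ^ 2 := by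
        apply mul_le_mul_of_nonneg_left _ (by positivity)
        exact Finset.sum_le_sum fun i _ => h' _
    _ = c * c' * Fintype.card (ι × κ) * ∑ p, ‖x p‖ ^ 2 := by
        rw [← Finset.mul_sum, Fintype.sum_prod_type, Fintype.card_prod]
        push_cast
        ring

lemma T2.equiv {ι κ : Type} [Fintype ι] [DecidableEq ι] [Fintype κ] [DecidableEq κ] {c : ℝ}
    (e : ι ≃ κ) (h : T2 X ι c) : T2 X κ c := by
  intro x
  have h1 := h (fun i => x (e i))
  have h2 : av (fun ε : ι → Bool => ‖∑ i, sg (ε i) • x (e i)‖ ^ 2) =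
      av (fun ε : κ → Bool => ‖∑ i, sg (ε i) • x i‖ ^ 2) := by
    rw [← av_comp (ι := κ) (κ := ι) e e.injective
      (fun ε : ι → Bool => ‖∑ i, sg (ε i) • x (e i)‖ ^ 2)]
    congr 1
    funext ε
    congr 2
    exact Equiv.sum_comp e (fun k => sg (ε k) • x k)
  rw [h2, Equiv.sum_comp e (fun k => ‖x k‖ ^ 2), Fintype.card_congr e] at h1
  exact h1

/-- B-convexity. -/
def BConvex (X : Type*) [NormedAddCommGroup X] [NormedSpace ℝ X] : Prop :=
  ∃ k : ℕ, 2 ≤ k ∧ ∃ δ : ℝ, 0 < δ ∧ ∀ x : Fin k → X, (∀ i, ‖x i‖ ≤ 1) →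
    ∃ s : Fin k → ℝ, (∀ i, s i = 1 ∨ s i = -1) ∧ ‖∑ i, s i • x i‖ ≤ k * (1 - δ)

lemma sq_sum_norm_le {k : ℕ} (a : Fin k → ℝ) : (∑ i, a i) ^ 2 ≤ k * ∑ i, a i ^ 2 := by
  have := sq_sum_le_card_mul_sum_sq (s := (Finset.univ : Finset (Fin k))) (f := a)
  simpa using this

/-- Deficit in the Cauchy-Schwarz inequality coming from two unequal entries. -/
lemma cs_deficit {k : ℕ} (a : Fin k → ℝ) (p q : Fin k) :
    (∑ i, a i) ^ 2 + (a p - a q) ^ 2 ≤ k * ∑ i, a i ^ 2 := by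
  -- `k ∑ a² - (∑ a)² = 1/2 ∑∑ (a i - a j)²`
  have h1 : (k : ℝ) * ∑ i, a i ^ 2 - (∑ i, a i) ^ 2 = 1 / 2 * ∑ i, ∑ j, (a i - a j) ^ 2 := by
    have h2 : ∑ i, ∑ j, (a i - a j) ^ 2 = ∑ i, ∑ j, (a i ^ 2 + a j ^ 2 - 2 * (a i * a j)) := by
      refine Finset.sum_congr rfl fun i _ => Finset.sum_congr rfl fun j _ => by ring
    rw [h2]
    simp only [Finset.sum_sub_distrib, Finset.sum_add_distrib, Finset.sum_const,
      Finset.card_univ, Fintype.card_fin, nsmul_eq_mul, ← Finset.mul_sum]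
    rw [sq (∑ i, a i), Finset.sum_mul_sum]
    simp only [← Finset.mul_sum]
    ring
  have h3 : 2 * (a p - a q) ^ 2 ≤ ∑ i, ∑ j, (a i - a j) ^ 2 := by
    by_cases hpq : p = q
    · subst hpq
      simp
      positivity
    · have h4 : ∑ i ∈ ({p, q} : Finset (Fin k)), ∑ j, (a i - a j) ^ 2 ≤
          ∑ i, ∑ j, (a i - a j) ^ 2 :=
        Finset.sum_le_sum_of_subset_of_nonneg (Finset.subset_univ _)
          (fun i _ _ => Finset.sum_nonneg fun j _ => sq_nonneg _)
      rw [Finset.sum_pair hpq] at h4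
      have h5 : (a p - a q) ^ 2 ≤ ∑ j, (a p - a j) ^ 2 :=
        Finset.single_le_sum (f := fun j => (a p - a j) ^ 2) (fun j _ => sq_nonneg _)
          (Finset.mem_univ q)
      have h6 : (a q - a p) ^ 2 ≤ ∑ j, (a q - a j) ^ 2 :=
        Finset.single_le_sum (f := fun j => (a q - a j) ^ 2) (fun j _ => sq_nonneg _)
          (Finset.mem_univ p)
      nlinarith
  linarith

lemma av_le_of_one_small {ι : Type} [Fintype ι] [DecidableEq ι] {f : (ι → Bool) → ℝ}
    {A B : ℝ} (hA : ∀ ε, f ε ≤ A) (ε₀ : ι → Bool) (hB : f ε₀ ≤ B) :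
    av f ≤ A - (A - B) / 2 ^ Fintype.card ι := by
  unfold av
  have h1 : ∑ ε, f ε = f ε₀ + ∑ ε ∈ Finset.univ.erase ε₀, f ε :=
    (Finset.add_sum_erase _ _ (Finset.mem_univ ε₀)).symm
  have h2 : ∑ ε ∈ Finset.univ.erase ε₀, f ε ≤ (2 ^ Fintype.card ι - 1) * A := by
    calc ∑ ε ∈ Finset.univ.erase ε₀, f ε ≤ ∑ ε ∈ Finset.univ.erase ε₀, A :=
          Finset.sum_le_sum fun ε _ => hA ε
      _ = (2 ^ Fintype.card ι - 1) * A := by
          rw [Finset.sum_const, Finset.card_erase_of_mem (Finset.mem_univ _), nsmul_eq_mul]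
          congr 1
          rw [Finset.card_univ, Fintype.card_fun, Fintype.card_bool,
            Nat.cast_sub Nat.one_le_two_pow]
          push_cast
          ring
  have hp : (0 : ℝ) < 2 ^ Fintype.card ι := by positivity
  rw [h1, div_le_iff₀ hp]
  have : (A - (A - B) / 2 ^ Fintype.card ι) * 2 ^ Fintype.card ι =
      2 ^ Fintype.card ι * A - (A - B) := by
    field_simp
  rw [this]
  nlinarith

/-- In a B-convex space one of the constants is smaller than one. -/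
lemma BConvex.exists_T2 (h : BConvex X) :
    ∃ k : ℕ, 0 < k ∧ ∃ θ : ℝ, 0 ≤ θ ∧ θ < 1 ∧ T2 X (Fin k) θ := by
  obtain ⟨k, hk, δ, hδ, hx⟩ := h
  have hk0 : 0 < k := by omega
  have hδ1 : δ ≤ 1 := by
    obtain ⟨s, -, hs⟩ := hx (fun _ => 0) (by simp)
    have h0 : (0 : ℝ) ≤ k * (1 - δ) := le_trans (norm_nonneg _) hs
    have : (0 : ℝ) < k := by exact_mod_cast hk0
    nlinarith
  have hkR : (0 : ℝ) < k := by exact_mod_cast hk0
  set t : ℝ := 1 / 2 ^ k with ht
  have ht0 : 0 < t := by positivity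
  have ht1 : t ≤ 1 := by
    rw [ht, div_le_one (by positivity)]
    exact one_le_pow₀ (by norm_num)
  set q : ℝ := (1 - δ) ^ 2 / (1 - δ / 2) ^ 2 with hq
  have hd2 : 0 < 1 - δ / 2 := by linarith
  have hq0 : 0 ≤ q := by positivity
  have hq1 : q < 1 := by
    rw [hq, div_lt_one (by positivity)]
    nlinarith
  set θ₁ : ℝ := 1 - t * (1 - q) with hθ₁
  set θ₂ : ℝ := 1 - δ ^ 2 / (4 * k ^ 2) with hθ₂
  have hθ₁0 : 0 ≤ θ₁ := by
    rw [hθ₁]; nlinarith
  have hθ₁1 : θ₁ < 1 := by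
    rw [hθ₁]; nlinarith
  have hθ₂1 : θ₂ < 1 := by
    rw [hθ₂]
    have : 0 < δ ^ 2 / (4 * (k : ℝ) ^ 2) := by positivity
    linarith
  refine ⟨k, hk0, max θ₁ θ₂, le_max_of_le_left hθ₁0, max_lt hθ₁1 hθ₂1, ?_⟩
  intro x
  rw [Fintype.card_fin]
  obtain ⟨p, -, hp⟩ := Finset.exists_max_image (Finset.univ : Finset (Fin k)) (fun i => ‖x i‖)
    ⟨⟨0, hk0⟩, Finset.mem_univ _⟩
  have hp' : ∀ i, ‖x i‖ ≤ ‖x p‖ := fun i => hp i (Finset.mem_univ i)
  set M : ℝ := ‖x p‖ with hM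
  have hM0 : 0 ≤ M := norm_nonneg _
  have hall : ∀ ε : Fin k → Bool, ‖∑ i, sg (ε i) • x i‖ ^ 2 ≤ (∑ i, ‖x i‖) ^ 2 := by
    intro ε
    apply pow_le_pow_left₀ (norm_nonneg _)
    refine le_trans (norm_sum_le _ _) (Finset.sum_le_sum fun i _ => ?_)
    rw [norm_smul, Real.norm_eq_abs, abs_sg, one_mul]
  have hS : 0 ≤ ∑ i, ‖x i‖ ^ 2 := Finset.sum_nonneg fun i _ => by positivity
  rcases eq_or_lt_of_le hM0 with hM1 | hM1
  · -- all vectors vanish
    have hz : ∀ i, x i = 0 := fun i => norm_le_zero_iff.1 (by rw [hM1]; exact hp' i)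
    have : av (fun ε : Fin k → Bool => ‖∑ i, sg (ε i) • x i‖ ^ 2) = 0 := by
      have : (fun ε : Fin k → Bool => ‖∑ i, sg (ε i) • x i‖ ^ 2) = fun _ => (0 : ℝ) := by
        funext ε
        simp [hz]
      rw [this, av_const]
    rw [this]
    have : 0 ≤ max θ₁ θ₂ := le_max_of_le_left hθ₁0
    positivity
  by_cases hsm : ∀ i, (1 - δ / 2) * M ≤ ‖x i‖
  · -- balanced case
    obtain ⟨s, hs1, hs2⟩ := hx (fun i => M⁻¹ • x i) (by
      intro i
      rw [norm_smul, Real.norm_eq_abs, abs_of_pos (inv_pos.2 hM1), inv_mul_le_iff₀ hM1, mul_one]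
      exact hp' i)
    have hs3 : ‖∑ i, s i • x i‖ ≤ M * (k * (1 - δ)) := by
      have : ∑ i, s i • x i = M • ∑ i, s i • M⁻¹ • x i := by
        rw [Finset.smul_sum]
        refine Finset.sum_congr rfl fun i _ => ?_
        rw [smul_comm (s i), smul_smul, mul_inv_cancel₀ hM1.ne', one_smul]
      rw [this, norm_smul, Real.norm_eq_abs, abs_of_pos hM1]
      exact mul_le_mul_of_nonneg_left hs2 hM0
    set ε₀ : Fin k → Bool := fun i => decide (s i = 1) with hε₀
    have hsε : ∀ i, sg (ε₀ i) = s i := by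
      intro i
      rcases hs1 i with h | h
      · simp [hε₀, h, sg]
      · have : ¬ ((-1 : ℝ) = 1) := by norm_num
        simp [hε₀, h, sg, this]
    have hB : ‖∑ i, sg (ε₀ i) • x i‖ ^ 2 ≤ (M * (k * (1 - δ))) ^ 2 := by
      simp_rw [hsε]
      exact pow_le_pow_left₀ (norm_nonneg _) hs3 2
    have hav := av_le_of_one_small (f := fun ε : Fin k → Bool => ‖∑ i, sg (ε i) • x i‖ ^ 2)
      (A := k * ∑ i, ‖x i‖ ^ 2) (fun ε => le_trans (hall ε) (sq_sum_norm_le _)) ε₀ hB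
    rw [Fintype.card_fin] at hav
    have hlow : (k : ℝ) * ((1 - δ / 2) * M) ^ 2 ≤ ∑ i, ‖x i‖ ^ 2 := by
      calc (k : ℝ) * ((1 - δ / 2) * M) ^ 2 = ∑ _i : Fin k, ((1 - δ / 2) * M) ^ 2 := by simp
        _ ≤ ∑ i, ‖x i‖ ^ 2 := Finset.sum_le_sum fun i _ =>
          pow_le_pow_left₀ (by positivity) (hsm i) 2
    have hBq : (M * (k * (1 - δ))) ^ 2 ≤ q * (k * ∑ i, ‖x i‖ ^ 2) := by
      have e1 : (M * (k * (1 - δ))) ^ 2 = q * (k * (k * ((1 - δ / 2) * M) ^ 2)) := by
        have hq' : q * (1 - δ / 2) ^ 2 = (1 - δ) ^ 2 := by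
          rw [hq]
          exact div_mul_cancel₀ _ (by positivity)
        calc (M * (k * (1 - δ))) ^ 2 = (k * (k * M ^ 2)) * (1 - δ) ^ 2 := by ring
          _ = q * (k * (k * ((1 - δ / 2) * M) ^ 2)) := by rw [← hq']; ring
      rw [e1]
      exact mul_le_mul_of_nonneg_left (mul_le_mul_of_nonneg_left hlow hkR.le) hq0
    refine le_trans hav ?_
    have : (k * ∑ i, ‖x i‖ ^ 2 - (k * ∑ i, ‖x i‖ ^ 2 - (M * (k * (1 - δ))) ^ 2) / 2 ^ k) ≤
        θ₁ * (k * ∑ i, ‖x i‖ ^ 2) := by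
      rw [hθ₁, div_eq_mul_one_div, ← ht]
      nlinarith
    refine le_trans this ?_
    rw [← mul_assoc]
    apply mul_le_mul_of_nonneg_right _ hS
    exact mul_le_mul_of_nonneg_right (le_max_left _ _) hkR.le
  · push Not at hsm
    obtain ⟨r, hr⟩ := hsm
    have h1 := cs_deficit (fun i => ‖x i‖) p r
    have h2 : av (fun ε : Fin k → Bool => ‖∑ i, sg (ε i) • x i‖ ^ 2) ≤ (∑ i, ‖x i‖) ^ 2 := by
      calc _ ≤ av (fun _ : Fin k → Bool => (∑ i, ‖x i‖) ^ 2) := av_mono hall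
        _ = _ := av_const _
    have h3 : (δ / 2 * M) ^ 2 ≤ (‖x p‖ - ‖x r‖) ^ 2 := by
      apply pow_le_pow_left₀ (by positivity)
      rw [← hM]; linarith
    have h4 : ∑ i, ‖x i‖ ^ 2 ≤ k * M ^ 2 := by
      calc ∑ i, ‖x i‖ ^ 2 ≤ ∑ _i : Fin k, M ^ 2 := Finset.sum_le_sum fun i _ =>
            pow_le_pow_left₀ (norm_nonneg _) (hp' i) 2
        _ = k * M ^ 2 := by simp
    have h5 : δ ^ 2 / (4 * (k : ℝ) ^ 2) * (k * ∑ i, ‖x i‖ ^ 2) ≤ (δ / 2 * M) ^ 2 := by
      calc δ ^ 2 / (4 * (k : ℝ) ^ 2) * (k * ∑ i, ‖x i‖ ^ 2)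
          ≤ δ ^ 2 / (4 * (k : ℝ) ^ 2) * (k * (k * M ^ 2)) := by gcongr
        _ = (δ / 2 * M) ^ 2 := by field_simp; ring
    have h6 : av (fun ε : Fin k → Bool => ‖∑ i, sg (ε i) • x i‖ ^ 2) ≤
        θ₂ * (k * ∑ i, ‖x i‖ ^ 2) := by
      rw [hθ₂, sub_mul, one_mul]
      linarith
    refine le_trans h6 ?_
    rw [← mul_assoc]
    apply mul_le_mul_of_nonneg_right _ hS
    exact mul_le_mul_of_nonneg_right (le_max_right _ _) hkR.le

/-- In a B-convex space the constants become arbitrarily small. -/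
lemma BConvex.small (h : BConvex X) {c : ℝ} (hc : 0 < c) :
    ∃ m : ℕ, 0 < m ∧ T2 X (Fin m) c := by
  obtain ⟨k, hk, θ, hθ0, hθ1, hT⟩ := h.exists_T2
  have hr : ∀ r : ℕ, ∃ m : ℕ, 0 < m ∧ T2 X (Fin m) (θ ^ r) := by
    intro r
    induction r with
    | zero =>
      refine ⟨1, one_pos, ?_⟩
      intro x
      simp only [Finset.univ_unique, Fin.default_eq_zero, Finset.sum_singleton, pow_zero,
        Fintype.card_fin, Nat.cast_one, one_mul]
      have : (fun ε : Fin 1 → Bool => ‖sg (ε 0) • x 0‖ ^ 2) = fun _ => ‖x 0‖ ^ 2 := by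
        funext ε
        rw [norm_smul, Real.norm_eq_abs, abs_sg, one_mul]
      rw [this, av_const]
    | succ r ih =>
      obtain ⟨m, hm, hTm⟩ := ih
      refine ⟨m * k, Nat.mul_pos hm hk, ?_⟩
      have := (T2.prod (pow_nonneg hθ0 r) hTm hT).equiv finProdFinEquiv
      rw [pow_succ]
      exact this
  obtain ⟨r, hr'⟩ := exists_pow_lt_of_lt_one hc hθ1
  obtain ⟨m, hm, hTm⟩ := hr r
  refine ⟨m, hm, fun x => le_trans (hTm x) ?_⟩
  apply mul_le_mul_of_nonneg_right
  · exact mul_le_mul_of_nonneg_right hr'.le (by positivity)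
  · exact Finset.sum_nonneg fun i _ => by positivity

/-- The first moment consequence for vectors of norm at most `r`. -/
lemma T2.first {m : ℕ} {c : ℝ} (hc : 0 ≤ c) (h : T2 X (Fin m) (c ^ 2)) {r : ℝ} (hr : 0 ≤ r)
    (x : Fin m → X) (hx : ∀ i, ‖x i‖ ≤ r) :
    av (fun ε => ‖∑ i, sg (ε i) • x i‖) ≤ c * r * m := by
  have h1 := av_sq_le (fun ε : Fin m → Bool => ‖∑ i, sg (ε i) • x i‖)
  have h2 := h x
  have h3 : ∑ i, ‖x i‖ ^ 2 ≤ m * r ^ 2 := by
    calc ∑ i, ‖x i‖ ^ 2 ≤ ∑ _i : Fin m, r ^ 2 := Finset.sum_le_sum fun i _ =>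
          pow_le_pow_left₀ (norm_nonneg _) (hx i) 2
      _ = m * r ^ 2 := by simp
  rw [Fintype.card_fin] at h2
  apply le_of_sq_le_sq _ (by positivity)
  calc (av (fun ε : Fin m → Bool => ‖∑ i, sg (ε i) • x i‖)) ^ 2
      ≤ c ^ 2 * m * ∑ i, ‖x i‖ ^ 2 := le_trans h1 h2
    _ ≤ c ^ 2 * m * (m * r ^ 2) := by gcongr
    _ = (c * r * m) ^ 2 := by ring

end type2

end Pool.Agent.Q298.Rset
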