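import Mathlib
import Pool.Agent.Q298.Rset.Signs

open Finset

namespace Pool.Agent.Q298.Rset

/-- Bounded real functions. -/
def Bd {T : Type*} (f : T → ℝ) : Prop := ∃ C, ∀ t, |f t| ≤ C

namespace Bd
variable {T : Type*} {f g : T → ℝ}

lemma add (hf : Bd f) (hg : Bd g) : Bd (fun t => f t + g t) := by
  obtain ⟨C, hC⟩ := hf
  obtain ⟨D, hD⟩ := hg
  exact ⟨C + D, fun t => le_trans (abs_add_le _ _) (add_le_add (hC t) (hD t))⟩

lemma mul_const (c : ℝ) (hf : Bd f) : Bd (fun t => c * f t) := by
  obtain ⟨C, hC⟩ := hf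
  refine ⟨|c| * C, fun t => ?_⟩
  rw [abs_mul]
  exact mul_le_mul_of_nonneg_left (hC t) (abs_nonneg _)

lemma zero : Bd (fun _ : T => (0 : ℝ)) := ⟨0, by simp⟩

lemma sum {ι : Type*} (s : Finset ι) {h : ι → T → ℝ} (hh : ∀ i ∈ s, Bd (h i)) :
    Bd (fun t => ∑ i ∈ s, h i t) := by
  classical
  induction s using Finset.induction_on with
  | empty => simpa using zero
  | insert a s ha ih =>
    have := (hh a (Finset.mem_insert_self _ _)).add
      (ih (fun i hi => hh i (Finset.mem_insert_of_mem hi)))
    simpa [Finset.sum_insert ha] using this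

lemma bddAbove (hf : Bd f) : BddAbove (Set.range f) := by
  obtain ⟨C, hC⟩ := hf
  refine ⟨C, ?_⟩
  rintro _ ⟨t, rfl⟩
  exact le_trans (le_abs_self _) (hC t)

lemma le_sup (hf : Bd f) (t : T) : f t ≤ ⨆ t, f t := le_ciSup hf.bddAbove t

end Bd

lemma av_split {J : Type} [Fintype J] [DecidableEq J] {m : ℕ}
    (F : (J → Bool) → (Fin m × J → Bool) → ℝ) :
    av (fun δ : Fin (m + 1) × J → Bool => F (fun j => δ (0, j)) (fun p => δ (p.1.succ, p.2))) =
      av (fun δ => av (fun δ' => F δ δ')) := by
  have r1 : av (fun δ : Fin (m + 1) × J → Bool =>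
      F (fun j => δ (0, j)) (fun p => δ (p.1.succ, p.2))) =
      av (fun η : J → Bool => av (fun δ : Fin (m + 1) × J → Bool =>
        F (fun j => (δ (0, j) == η j)) (fun p => δ (p.1.succ, p.2)))) := by
    have : ∀ η : J → Bool, av (fun δ : Fin (m + 1) × J → Bool =>
        F (fun j => (δ (0, j) == η j)) (fun p => δ (p.1.succ, p.2))) =
        av (fun δ : Fin (m + 1) × J → Bool =>
        F (fun j => δ (0, j)) (fun p => δ (p.1.succ, p.2))) := by
      intro η
      have := av_flip (fun p : Fin (m + 1) × J => if p.1 = 0 then η p.2 else true)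
        (fun δ : Fin (m + 1) × J → Bool =>
          F (fun j => δ (0, j)) (fun p => δ (p.1.succ, p.2)))
      rw [← this]
      congr 1
      funext δ
      congr 1
      funext p
      simp [Fin.succ_ne_zero]
    simp_rw [this]
    rw [av_const]
  rw [r1, av_comm]
  have r2 : ∀ δ : Fin (m + 1) × J → Bool, av (fun η : J → Bool =>
        F (fun j => (δ (0, j) == η j)) (fun p => δ (p.1.succ, p.2))) =
      av (fun η : J → Bool => F η (fun p => δ (p.1.succ, p.2))) := by
    intro δ
    have := av_flip (fun j => δ (0, j))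
      (fun η : J → Bool => F η (fun p => δ (p.1.succ, p.2)))
    rw [← this]
    congr 1
    funext η
    congr 1
    funext j
    cases δ (0, j) <;> cases η j <;> rfl
  simp_rw [r2]
  rw [av_comm]
  congr 1
  funext η
  exact (av_comp (fun p : Fin m × J => (p.1.succ, p.2))
    (fun a b hab => by
      simp only [Prod.mk.injEq, Fin.succ_inj] at hab
      exact Prod.ext hab.1 hab.2)
    (fun δ' : Fin m × J → Bool => F η δ'))

section step
variable {T : Type*} [Nonempty T] {J : Type} [Fintype J] [DecidableEq J]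

/-- A single coordinate is dominated by the average of the absolute signed sum. -/
lemma abs_le_av (a : J → ℝ) (j : J) : |a j| ≤ av (fun δ : J → Bool => |∑ i, sg (δ i) * a i|) := by
  have h1 : av (fun δ : J → Bool => |∑ i, sg (δ i) * a i|) =
      av (fun δ : J → Bool => |sg (δ j) * a j - ∑ i ∈ Finset.univ.erase j, sg (δ i) * a i|) := by
    have := av_flip (fun i => decide (i = j)) (fun δ : J → Bool => |∑ i, sg (δ i) * a i|)
    rw [← this]
    congr 1
    funext δ
    congr 1
    rw [← Finset.add_sum_erase _ _ (Finset.mem_univ j), sub_eq_add_neg, ← Finset.sum_neg_distrib]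
    congr 1
    · rw [sg_beq]
      simp [sg]
    · refine Finset.sum_congr rfl fun i hi => ?_
      have : i ≠ j := Finset.ne_of_mem_erase hi
      rw [sg_beq]
      simp [sg, this]
  have h2 : av (fun δ : J → Bool => |∑ i, sg (δ i) * a i|) =
      av (fun δ : J → Bool => |sg (δ j) * a j + ∑ i ∈ Finset.univ.erase j, sg (δ i) * a i|) := by
    congr 1
    funext δ
    congr 1
    rw [← Finset.add_sum_erase _ _ (Finset.mem_univ j)]
  have h3 : 2 * |a j| ≤ av (fun δ : J → Bool => |∑ i, sg (δ i) * a i|) +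
      av (fun δ : J → Bool => |∑ i, sg (δ i) * a i|) := by
    nth_rw 2 [h1]
    rw [h2, ← av_add]
    calc 2 * |a j| = av (fun _ : J → Bool => 2 * |a j|) := (av_const _).symm
      _ ≤ _ := av_mono fun δ => by
        have : 2 * |a j| = |(sg (δ j) * a j + ∑ i ∈ Finset.univ.erase j, sg (δ i) * a i) +
            (sg (δ j) * a j - ∑ i ∈ Finset.univ.erase j, sg (δ i) * a i)| := by
          rw [show (sg (δ j) * a j + ∑ i ∈ Finset.univ.erase j, sg (δ i) * a i) +
            (sg (δ j) * a j - ∑ i ∈ Finset.univ.erase j, sg (δ i) * a i) =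
            2 * (sg (δ j) * a j) by ring, abs_mul, abs_mul, abs_sg]
          norm_num
        rw [this]
        exact abs_add_le _ _
  linarith

lemma sum_abs_le_av (a : J → ℝ) :
    ∑ j, |a j| ≤ Fintype.card J * av (fun δ : J → Bool => |∑ i, sg (δ i) * a i|) := by
  calc ∑ j, |a j| ≤ ∑ _j : J, av (fun δ : J → Bool => |∑ i, sg (δ i) * a i|) :=
        Finset.sum_le_sum fun j _ => abs_le_av a j
    _ = _ := by rw [Finset.sum_const, Finset.card_univ, nsmul_eq_mul]

/-- One step of the vector contraction principle. -/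
lemma contraction_step {g φ : T → ℝ} {x : J → T → ℝ} {L : ℝ} (hL : 0 ≤ L)
    (hg : Bd g) (hφ : Bd φ) (hx : ∀ j, Bd (x j))
    (hlip : ∀ s t, |φ s - φ t| ≤ L * ∑ j, |x j s - x j t|) :
    ((⨆ t, (g t + φ t)) + ⨆ t, (g t - φ t)) / 2 ≤
      av (fun δ : J → Bool => ⨆ t, (g t + (L * Fintype.card J) * ∑ j, sg (δ j) * x j t)) := by
  set K : ℝ := L * Fintype.card J with hK
  have hK0 : 0 ≤ K := by positivity
  have hy : ∀ δ : J → Bool, Bd (fun t => ∑ j, sg (δ j) * x j t) := fun δ =>
    Bd.sum _ fun j _ => (hx j).mul_const _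
  have hgy : ∀ δ : J → Bool, Bd (fun t => g t + K * ∑ j, sg (δ j) * x j t) := fun δ =>
    hg.add ((hy δ).mul_const K)
  have hgy' : ∀ δ : J → Bool, Bd (fun t => g t - K * ∑ j, sg (δ j) * x j t) := fun δ => by
    have := hg.add ((hy δ).mul_const (-K))
    simpa [sub_eq_add_neg] using this
  -- symmetry
  have hsym : av (fun δ : J → Bool => ⨆ t, (g t - K * ∑ j, sg (δ j) * x j t)) =
      av (fun δ : J → Bool => ⨆ t, (g t + K * ∑ j, sg (δ j) * x j t)) := by
    rw [← av_neg (fun δ : J → Bool => ⨆ t, (g t + K * ∑ j, sg (δ j) * x j t))]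
    congr 1
    funext δ
    congr 1
    funext t
    simp_rw [sg_not, neg_mul, Finset.sum_neg_distrib]
    ring
  set A := av (fun δ : J → Bool => ⨆ t, (g t + K * ∑ j, sg (δ j) * x j t)) with hA
  have hmain : ∀ s t, (g s + φ s) + (g t - φ t) ≤ 2 * A := by
    intro s t
    have h1 : φ s - φ t ≤ K * av (fun δ : J → Bool =>
        |(∑ j, sg (δ j) * x j s) - ∑ j, sg (δ j) * x j t|) := by
      have h2 := hlip s t
      have h3 := sum_abs_le_av (fun j => x j s - x j t)
      have h4 : (fun δ : J → Bool => |∑ i, sg (δ i) * (x i s - x i t)|) =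
          (fun δ : J → Bool => |(∑ j, sg (δ j) * x j s) - ∑ j, sg (δ j) * x j t|) := by
        funext δ
        congr 1
        rw [← Finset.sum_sub_distrib]
        exact Finset.sum_congr rfl fun j _ => by ring
      rw [h4] at h3
      calc φ s - φ t ≤ |φ s - φ t| := le_abs_self _
        _ ≤ L * ∑ j, |x j s - x j t| := h2
        _ ≤ _ := by
          rw [hK, mul_assoc]
          exact mul_le_mul_of_nonneg_left h3 hL
    have h5 : g s + g t + K * av (fun δ : J → Bool =>
        |(∑ j, sg (δ j) * x j s) - ∑ j, sg (δ j) * x j t|) ≤ A +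
        av (fun δ : J → Bool => ⨆ t, (g t - K * ∑ j, sg (δ j) * x j t)) := by
      rw [← av_mul, ← av_const (ι := J) (g s + g t), ← av_add, hA, ← av_add]
      refine av_mono fun δ => ?_
      rcases le_total (∑ j, sg (δ j) * x j t) (∑ j, sg (δ j) * x j s) with h | h
      · rw [abs_of_nonneg (by linarith)]
        have e1 := (hgy δ).le_sup s
        have e2 := (hgy' δ).le_sup t
        linarith
      · rw [abs_of_nonpos (by linarith)]
        have e1 := (hgy δ).le_sup t
        have e2 := (hgy' δ).le_sup s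
        linarith
    rw [hsym] at h5
    linarith
  have h6 : ∀ t, (⨆ s, (g s + φ s)) ≤ 2 * A - (g t - φ t) := fun t =>
    ciSup_le fun s => by linarith [hmain s t]
  have h7 : (⨆ t, (g t - φ t)) ≤ 2 * A - ⨆ s, (g s + φ s) :=
    ciSup_le fun t => by linarith [h6 t]
  linarith

/-- The vector contraction principle. -/
lemma contraction {L : ℝ} (hL : 0 ≤ L) : ∀ (m : ℕ) (g : T → ℝ) (φ : Fin m → T → ℝ)
    (x : Fin m → J → T → ℝ) (_ : Bd g) (_ : ∀ i, Bd (φ i)) (_ : ∀ i j, Bd (x i j))
    (_ : ∀ i s t, |φ i s - φ i t| ≤ L * ∑ j, |x i j s - x i j t|),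
    av (fun ε : Fin m → Bool => ⨆ t, (g t + ∑ i, sg (ε i) * φ i t)) ≤
      av (fun δ : Fin m × J → Bool =>
        ⨆ t, (g t + (L * Fintype.card J) * ∑ i, ∑ j, sg (δ (i, j)) * x i j t)) := by
  intro m
  induction m with
  | zero =>
    intro g φ x hg hφ hx hlip
    simp only [Finset.univ_eq_empty, Finset.sum_empty, add_zero, mul_zero]
    rw [av_const, av_const]
  | succ m ih =>
    intro g φ x hg hφ hx hlip
    set K : ℝ := L * Fintype.card J with hK
    -- left side
    have h1 : av (fun ε : Fin (m + 1) → Bool => ⨆ t, (g t + ∑ i, sg (ε i) * φ i t)) =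
        av (fun ε : Fin m → Bool =>
          ((⨆ t, ((g t + ∑ i, sg (ε i) * φ i.succ t) + φ 0 t)) +
            ⨆ t, ((g t + ∑ i, sg (ε i) * φ i.succ t) - φ 0 t)) / 2) := by
      rw [av_fin_succ]
      have e1 : ∀ (b : Bool) (ε : Fin m → Bool) (t : T),
          (g t + ∑ i, sg ((Fin.cons b ε : Fin (m + 1) → Bool) i) * φ i t) =
          (g t + ∑ i, sg (ε i) * φ i.succ t) + sg b * φ 0 t := by
        intro b ε t
        rw [Fin.sum_univ_succ]
        simp only [Fin.cons_zero, Fin.cons_succ]
        ring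
      simp_rw [e1]
      rw [← av_add]
      rw [show (fun ε : Fin m → Bool =>
          ((⨆ t, ((g t + ∑ i, sg (ε i) * φ i.succ t) + φ 0 t)) +
            ⨆ t, ((g t + ∑ i, sg (ε i) * φ i.succ t) - φ 0 t)) / 2) =
          (fun ε : Fin m → Bool => (1 / 2) *
          ((⨆ t, ((g t + ∑ i, sg (ε i) * φ i.succ t) + φ 0 t)) +
            ⨆ t, ((g t + ∑ i, sg (ε i) * φ i.succ t) - φ 0 t))) from by
        funext ε; ring]
      rw [av_mul]
      have e2 : ∀ (ε : Fin m → Bool) (t : T),
          g t + ∑ i, sg (ε i) * φ i.succ t + sg true * φ 0 t =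
          g t + ∑ i, sg (ε i) * φ i.succ t + φ 0 t := by
        intro ε t; simp [sg]
      have e3 : ∀ (ε : Fin m → Bool) (t : T),
          g t + ∑ i, sg (ε i) * φ i.succ t + sg false * φ 0 t =
          g t + ∑ i, sg (ε i) * φ i.succ t - φ 0 t := by
        intro ε t; simp [sg, sub_eq_add_neg]
      simp_rw [e2, e3]
      ring
    rw [h1]
    have hbs : ∀ ε : Fin m → Bool, Bd (fun t => g t + ∑ i, sg (ε i) * φ i.succ t) := fun ε =>
      hg.add (Bd.sum _ fun i _ => (hφ i.succ).mul_const _)
    calc av (fun ε : Fin m → Bool =>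
          ((⨆ t, ((g t + ∑ i, sg (ε i) * φ i.succ t) + φ 0 t)) +
            ⨆ t, ((g t + ∑ i, sg (ε i) * φ i.succ t) - φ 0 t)) / 2)
        ≤ av (fun ε : Fin m → Bool => av (fun δ : J → Bool =>
            ⨆ t, ((g t + ∑ i, sg (ε i) * φ i.succ t) + K * ∑ j, sg (δ j) * x 0 j t))) :=
          av_mono fun ε => contraction_step hL (hbs ε) (hφ 0) (hx 0) (hlip 0)
      _ = av (fun δ : J → Bool => av (fun ε : Fin m → Bool =>
            ⨆ t, ((g t + K * ∑ j, sg (δ j) * x 0 j t) + ∑ i, sg (ε i) * φ i.succ t))) := by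
          rw [av_comm]
          congr 1
          funext δ
          congr 1
          funext ε
          congr 1
          funext t
          ring
      _ ≤ av (fun δ : J → Bool => av (fun δ' : Fin m × J → Bool =>
            ⨆ t, ((g t + K * ∑ j, sg (δ j) * x 0 j t) +
              K * ∑ i, ∑ j, sg (δ' (i, j)) * x i.succ j t))) := by
          refine av_mono fun δ => ?_
          refine ih (fun t => g t + K * ∑ j, sg (δ j) * x 0 j t) (fun i => φ i.succ)
            (fun i => x i.succ) ?_ (fun i => hφ _) (fun i j => hx _ _) (fun i s t => hlip _ s t)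
          exact hg.add ((Bd.sum _ fun j _ => (hx 0 j).mul_const _).mul_const K)
      _ = av (fun δ : Fin (m + 1) × J → Bool =>
            ⨆ t, (g t + K * ∑ i, ∑ j, sg (δ (i, j)) * x i j t)) := by
          -- recombine the two averages
          have e0 : ∀ δ : Fin (m + 1) × J → Bool, (⨆ t, (g t + K * ∑ i, ∑ j, sg (δ (i, j)) * x i j t)) =
              (⨆ t, ((g t + K * ∑ j, sg (δ (0, j)) * x 0 j t) +
              K * ∑ i : Fin m, ∑ j, sg (δ (i.succ, j)) * x i.succ j t)) := by
            intro δ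
            congr 1
            funext t
            rw [Fin.sum_univ_succ]
            ring
          simp_rw [e0]
          -- F(δ₀, δ')
          set F : (J → Bool) → (Fin m × J → Bool) → ℝ := fun δ δ' =>
            ⨆ t, ((g t + K * ∑ j, sg (δ j) * x 0 j t) +
              K * ∑ i, ∑ j, sg (δ' (i, j)) * x i.succ j t) with hF
          show av (fun δ => av (fun δ' => F δ δ')) =
            av (fun δ : Fin (m + 1) × J → Bool => F (fun j => δ (0, j)) (fun p => δ (p.1.succ, p.2)))
          exact (av_split F).symm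

end step

end Pool.Agent.Q298.Rset
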