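import Mathlib
import Pool.Agent.Q298.Rset.Signs

open MeasureTheory ProbabilityTheory Finset

namespace Pool.Agent.Q298.Rset

section symm
variable {Z : Type*} [NormedAddCommGroup Z] [NormedSpace ℝ Z] [CompleteSpace Z]
  [MeasurableSpace Z] [BorelSpace Z]

lemma integral_comp_mp {α β : Type*} [MeasurableSpace α] [MeasurableSpace β] {μ : Measure α}
    {ν : Measure β} {E : Type*} [NormedAddCommGroup E] [NormedSpace ℝ E] {f : α → β}
    (hf : MeasurePreserving f μ ν) {g : β → E} (hg : AEStronglyMeasurable g ν) :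
    ∫ a, g (f a) ∂μ = ∫ b, g b ∂ν := by
  have hg' : AEStronglyMeasurable g (μ.map f) := by rw [hf.map_eq]; exact hg
  rw [← integral_map hf.measurable.aemeasurable hg', hf.map_eq]

/-- The symmetrization inequality on a product space. -/
lemma symm_pi {m : ℕ} (μ : Fin m → Measure Z) [∀ i, IsProbabilityMeasure (μ i)]
    (hint : ∀ i, Integrable (fun z => z) (μ i)) (ε : Fin m → Bool) :
    ∫ z, ‖∑ i, (z i - ∫ y, y ∂(μ i))‖ ∂(Measure.pi μ) ≤
      2 * ∫ z, ‖∑ i, sg (ε i) • z i‖ ∂(Measure.pi μ) := by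
  set ν := Measure.pi μ with hν
  have hev : ∀ i, MeasurePreserving (fun z : Fin m → Z => z i) ν (μ i) := fun i =>
    measurePreserving_eval μ i
  have hmz : ∀ i, AEStronglyMeasurable (fun z : Fin m → Z => z i) ν := fun i =>
    (hint i).aestronglyMeasurable.comp_measurePreserving (hev i)
  have hiz : ∀ i, Integrable (fun z : Fin m → Z => z i) ν := fun i =>
    ((hev i).integrable_comp (hint i).aestronglyMeasurable).2 (hint i)
  have hmean : ∀ i, ∫ z, z i ∂ν = ∫ y, y ∂(μ i) := fun i =>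
    integral_comp_mp (hev i) (hint i).aestronglyMeasurable
  -- first step: introduce an independent copy
  have h1 : ∀ z : Fin m → Z, ‖∑ i, (z i - ∫ y, y ∂(μ i))‖ ≤ ∫ y, ‖∑ i, (z i - y i)‖ ∂ν := by
    intro z
    have : ∑ i, (z i - ∫ y, y ∂(μ i)) = ∫ y, ∑ i, (z i - y i) ∂ν := by
      have hsub : ∀ i, Integrable (fun y : Fin m → Z => z i - y i) ν := fun i =>
        (integrable_const (z i)).sub (hiz i)
      rw [integral_finsetSum _ (fun i _ => hsub i)]
      refine Finset.sum_congr rfl fun i _ => ?_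
      rw [integral_sub (integrable_const _) (hiz i), hmean i]
      simp
    rw [this]
    exact norm_integral_le_integral_norm _
  have hfst : MeasurePreserving (Prod.fst : (Fin m → Z) × (Fin m → Z) → (Fin m → Z))
      (ν.prod ν) ν := measurePreserving_fst
  have hsnd : MeasurePreserving (Prod.snd : (Fin m → Z) × (Fin m → Z) → (Fin m → Z))
      (ν.prod ν) ν := measurePreserving_snd
  have hi1 : ∀ i, Integrable (fun p : (Fin m → Z) × (Fin m → Z) => p.1 i) (ν.prod ν) := fun i =>
    (hfst.integrable_comp (hmz i)).2 (hiz i)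
  have hi2 : ∀ i, Integrable (fun p : (Fin m → Z) × (Fin m → Z) => p.2 i) (ν.prod ν) := fun i =>
    (hsnd.integrable_comp (hmz i)).2 (hiz i)
  have hG : Integrable (fun p : (Fin m → Z) × (Fin m → Z) => ‖∑ i, (p.1 i - p.2 i)‖)
      (ν.prod ν) :=
    (integrable_finsetSum _ fun i _ => (hi1 i).sub (hi2 i)).norm
  have h2 : ∫ z, ‖∑ i, (z i - ∫ y, y ∂(μ i))‖ ∂ν ≤
      ∫ p, ‖∑ i, (p.1 i - p.2 i)‖ ∂(ν.prod ν) := by
    rw [integral_prod _ hG]
    refine integral_mono_of_nonneg (Filter.Eventually.of_forall fun z => norm_nonneg _)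
      hG.integral_prod_left (Filter.Eventually.of_forall fun z => h1 z)
  refine le_trans h2 ?_
  -- second step: pass to the product of pairs and flip
  set ρ := Measure.pi (fun i => (μ i).prod (μ i)) with hρ
  have he : MeasurePreserving (MeasurableEquiv.arrowProdEquivProdArrow Z Z (Fin m)) ρ
      (ν.prod ν) := measurePreserving_arrowProdEquivProdArrow Z Z (Fin m) μ μ
  have h3 : ∫ p, ‖∑ i, (p.1 i - p.2 i)‖ ∂(ν.prod ν) =
      ∫ w : Fin m → Z × Z, ‖∑ i, ((w i).1 - (w i).2)‖ ∂ρ := by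
    rw [← integral_comp_mp he hG.aestronglyMeasurable]
    rfl
  have hpr1 : MeasurePreserving (fun (w : Fin m → Z × Z) i => (w i).1) ρ ν :=
    measurePreserving_pi (fun i => (μ i).prod (μ i)) μ (f := fun _ => Prod.fst)
      (fun i => measurePreserving_fst)
  have hpr2 : MeasurePreserving (fun (w : Fin m → Z × Z) i => (w i).2) ρ ν :=
    measurePreserving_pi (fun i => (μ i).prod (μ i)) μ (f := fun _ => Prod.snd)
      (fun i => measurePreserving_snd)
  have hw1 : ∀ i, Integrable (fun w : Fin m → Z × Z => (w i).1) ρ := fun i =>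
    (hpr1.integrable_comp (hmz i)).2 (hiz i)
  have hw2 : ∀ i, Integrable (fun w : Fin m → Z × Z => (w i).2) ρ := fun i =>
    (hpr2.integrable_comp (hmz i)).2 (hiz i)
  have hflip : MeasurePreserving (fun (w : Fin m → Z × Z) i =>
      (if ε i then (id : Z × Z → Z × Z) else Prod.swap) (w i)) ρ ρ :=
    measurePreserving_pi (fun i => (μ i).prod (μ i)) (fun i => (μ i).prod (μ i))
      (f := fun i => if ε i then (id : Z × Z → Z × Z) else Prod.swap)
      (fun i => by
        by_cases h : ε i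
        · simp only [h, if_true]
          exact MeasurePreserving.id _
        · simp only [h]
          exact Measure.measurePreserving_swap)
  have hH : Integrable (fun w : Fin m → Z × Z => ‖∑ i, ((w i).1 - (w i).2)‖) ρ :=
    (integrable_finsetSum _ fun i _ => (hw1 i).sub (hw2 i)).norm
  have h4 : ∫ w : Fin m → Z × Z, ‖∑ i, ((w i).1 - (w i).2)‖ ∂ρ =
      ∫ w : Fin m → Z × Z, ‖∑ i, sg (ε i) • ((w i).1 - (w i).2)‖ ∂ρ := by
    rw [← integral_comp_mp hflip hH.aestronglyMeasurable]
    congr 1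
    funext w
    congr 1
    refine Finset.sum_congr rfl fun i _ => ?_
    by_cases h : ε i
    · simp [h, sg]
    · simp [h, sg]
  have hs1 : Integrable (fun w : Fin m → Z × Z => ‖∑ i, sg (ε i) • (w i).1‖) ρ :=
    (integrable_finsetSum _ fun i _ => (hw1 i).smul (sg (ε i))).norm
  have hs2 : Integrable (fun w : Fin m → Z × Z => ‖∑ i, sg (ε i) • (w i).2‖) ρ :=
    (integrable_finsetSum _ fun i _ => (hw2 i).smul (sg (ε i))).norm
  have hs : Integrable (fun z : Fin m → Z => ‖∑ i, sg (ε i) • z i‖) ν :=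
    (integrable_finsetSum _ fun i _ => (hiz i).smul (sg (ε i))).norm
  have h5 : ∫ w : Fin m → Z × Z, ‖∑ i, sg (ε i) • ((w i).1 - (w i).2)‖ ∂ρ ≤
      (∫ w : Fin m → Z × Z, ‖∑ i, sg (ε i) • (w i).1‖ ∂ρ) +
      ∫ w : Fin m → Z × Z, ‖∑ i, sg (ε i) • (w i).2‖ ∂ρ := by
    rw [← integral_add hs1 hs2]
    refine integral_mono_of_nonneg (Filter.Eventually.of_forall fun z => norm_nonneg _)
      (hs1.add hs2) (Filter.Eventually.of_forall fun w => ?_)
    simp only [smul_sub, Finset.sum_sub_distrib]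
    exact norm_sub_le _ _
  have h6 : ∫ w : Fin m → Z × Z, ‖∑ i, sg (ε i) • (w i).1‖ ∂ρ =
      ∫ z, ‖∑ i, sg (ε i) • z i‖ ∂ν := by
    exact integral_comp_mp hpr1 (g := fun z : Fin m → Z => ‖∑ i, sg (ε i) • z i‖)
      hs.aestronglyMeasurable
  have h7 : ∫ w : Fin m → Z × Z, ‖∑ i, sg (ε i) • (w i).2‖ ∂ρ =
      ∫ z, ‖∑ i, sg (ε i) • z i‖ ∂ν := by
    exact integral_comp_mp hpr2 (g := fun z : Fin m → Z => ‖∑ i, sg (ε i) • z i‖)
      hs.aestronglyMeasurable
  rw [h3, h4]
  linarith

/-- The identity is strongly measurable with respect to the law of a strongly measurable map. -/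
lemma aesm_id_map {Ω : Type*} [MeasurableSpace Ω] {P : Measure Ω} {F : Ω → Z}
    (hF : AEStronglyMeasurable F P) : AEStronglyMeasurable (fun z => z) (P.map F) := by
  rw [aestronglyMeasurable_iff_aemeasurable_separable]
  refine ⟨aemeasurable_id, ?_⟩
  obtain ⟨-, t, ht, hFt⟩ := (aestronglyMeasurable_iff_aemeasurable_separable).1 hF
  refine ⟨closure t, ht.closure, ?_⟩
  have hcl : MeasurableSet {x : Z | x ∈ closure t} := isClosed_closure.measurableSet
  rw [ae_map_iff hF.aemeasurable hcl]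
  filter_upwards [hFt] with ω hω using subset_closure hω

/-- Symmetrization for a finite family of independent vectors. -/
lemma symm_family {Ω : Type*} [MeasurableSpace Ω] {P : Measure Ω} [IsProbabilityMeasure P]
    {m : ℕ} (F : Fin m → Ω → Z) (hF : ∀ i, Integrable (F i) P) (hind : iIndepFun F P)
    (ε : Fin m → Bool) :
    ∫ ω, ‖∑ i, (F i ω - ∫ ω', F i ω' ∂P)‖ ∂P ≤ 2 * ∫ ω, ‖∑ i, sg (ε i) • F i ω‖ ∂P := by
  have hFm : ∀ i, AEMeasurable (F i) P := fun i => (hF i).aestronglyMeasurable.aemeasurable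
  have : ∀ i, IsProbabilityMeasure (P.map (F i)) := fun i =>
    Measure.isProbabilityMeasure_map (hFm i)
  have hjoint := (iIndepFun_iff_map_fun_eq_pi_map hFm).1 hind
  have hidm : ∀ i, AEStronglyMeasurable (fun z => z) (P.map (F i)) := fun i =>
    aesm_id_map (hF i).aestronglyMeasurable
  have hint : ∀ i, Integrable (fun z => z) (P.map (F i)) := fun i =>
    (integrable_map_measure (hidm i) (hFm i)).2 (hF i)
  have hmean : ∀ i, ∫ y, y ∂(P.map (F i)) = ∫ ω, F i ω ∂P := fun i =>
    integral_map (hFm i) (hidm i)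
  have hmz : ∀ i, AEStronglyMeasurable (fun z : Fin m → Z => z i)
      (Measure.pi (fun i => P.map (F i))) := fun i =>
    (hidm i).comp_measurePreserving (measurePreserving_eval (fun i => P.map (F i)) i)
  have key := symm_pi (fun i => P.map (F i)) hint ε
  have hjm : AEMeasurable (fun ω i => F i ω) P := aemeasurable_pi_lambda _ hFm
  rw [← hjoint] at key
  have e1 : ∫ z, ‖∑ i, (z i - ∫ y, y ∂(P.map (F i)))‖ ∂(P.map (fun ω i => F i ω)) =
      ∫ ω, ‖∑ i, (F i ω - ∫ ω', F i ω' ∂P)‖ ∂P := by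
    rw [integral_map hjm]
    · simp_rw [hmean]
    · rw [hjoint]
      refine AEStronglyMeasurable.norm ?_
      refine Finset.aestronglyMeasurable_fun_sum _ fun i _ => ?_
      exact (hmz i).sub aestronglyMeasurable_const
  have e2 : ∫ z, ‖∑ i, sg (ε i) • z i‖ ∂(P.map (fun ω i => F i ω)) =
      ∫ ω, ‖∑ i, sg (ε i) • F i ω‖ ∂P := by
    rw [integral_map hjm]
    rw [hjoint]
    refine AEStronglyMeasurable.norm ?_
    refine Finset.aestronglyMeasurable_fun_sum _ fun i _ => ?_
    exact (hmz i).const_smul _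
  rw [e1, e2] at key
  exact key

end symm

end Pool.Agent.Q298.Rset
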