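import Mathlib
import Pool.Agent.Q298.Rset.Signs
import Pool.Agent.Q298.Rset.Symm

open MeasureTheory ProbabilityTheory Finset Filter Topology

namespace Pool.Agent.Q298.Rset

section real
variable {Ω : Type*} [MeasurableSpace Ω] {P : Measure Ω} [IsProbabilityMeasure P]

/-- Nonnegative integrable functions with summable integrals tend to zero almost surely. -/
lemma ae_tendsto_zero_of_summable {f : ℕ → Ω → ℝ} (hf0 : ∀ k ω, 0 ≤ f k ω)
    (hfi : ∀ k, Integrable (f k) P) {a : ℕ → ℝ} (hfa : ∀ k, ∫ ω, f k ω ∂P ≤ a k)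
    (ha : Summable a) : ∀ᵐ ω ∂P, Tendsto (fun k => f k ω) atTop (𝓝 0) := by
  have ha0 : ∀ k, 0 ≤ a k := fun k => le_trans (integral_nonneg (hf0 k)) (hfa k)
  have h1 : ∫⁻ ω, ∑' k, ENNReal.ofReal (f k ω) ∂P ≠ ⊤ := by
    rw [lintegral_tsum (fun k => (hfi k).aestronglyMeasurable.aemeasurable.ennreal_ofReal)]
    have h2 : ∀ k, ∫⁻ ω, ENNReal.ofReal (f k ω) ∂P ≤ ENNReal.ofReal (a k) := by
      intro k
      rw [← ofReal_integral_eq_lintegral_ofReal (hfi k) (Eventually.of_forall (hf0 k))]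
      exact ENNReal.ofReal_le_ofReal (hfa k)
    have h3 : ∑' k, ENNReal.ofReal (a k) ≠ ⊤ := by
      rw [← ENNReal.ofReal_tsum_of_nonneg ha0 ha]
      exact ENNReal.ofReal_ne_top
    exact ne_top_of_le_ne_top h3 (ENNReal.tsum_le_tsum h2)
  have hmeas : AEMeasurable (fun ω => ∑' k, ENNReal.ofReal (f k ω)) P :=
    AEMeasurable.tsum (fun k => (hfi k).aestronglyMeasurable.aemeasurable.ennreal_ofReal)
  filter_upwards [ae_lt_top' hmeas h1] with ω hω
  have h4 := ENNReal.tendsto_atTop_zero_of_tsum_ne_top hω.ne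
  have h5 := (ENNReal.tendsto_toReal ENNReal.zero_ne_top).comp h4
  simp only [ENNReal.toReal_zero] at h5
  refine h5.congr fun k => ?_
  simp [Function.comp_def, ENNReal.toReal_ofReal (hf0 k ω)]

/-- The strong law for bounded pairwise independent real random variables. -/
lemma slln_real {B : ℕ → Ω → ℝ} {K : ℝ} (hB : ∀ j ω, |B j ω| ≤ K)
    (hm : ∀ j, AEStronglyMeasurable (B j) P)
    (hind : Pairwise fun i j => IndepFun (B i) (B j) P) :
    ∀ᵐ ω ∂P, Tendsto (fun n : ℕ => (∑ j ∈ range n, (B j ω - ∫ ω', B j ω' ∂P)) / n)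
      atTop (𝓝 0) := by
  have hΩ : Nonempty Ω := by
    by_contra h
    rw [not_nonempty_iff] at h
    have := measure_univ (μ := P)
    rw [Measure.eq_zero_of_isEmpty P] at this
    simp at this
  obtain ⟨ω₀⟩ := hΩ
  have hK0 : 0 ≤ K := le_trans (abs_nonneg _) (hB 0 ω₀)
  have hmem : ∀ j, MemLp (B j) 2 P := fun j =>
    MemLp.of_bound (hm j) K (Eventually.of_forall fun ω => by
      rw [Real.norm_eq_abs]; exact hB j ω)
  have hintB : ∀ j, Integrable (B j) P := fun j => (hmem j).integrable (by norm_num)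
  have hmean : ∀ j, |∫ ω', B j ω' ∂P| ≤ K := by
    intro j
    rw [← Real.norm_eq_abs]
    refine le_trans (norm_integral_le_integral_norm _) ?_
    calc ∫ ω, ‖B j ω‖ ∂P ≤ ∫ _ω, K ∂P :=
          integral_mono (hintB j).norm (integrable_const _) (fun ω => by
            rw [Real.norm_eq_abs]; exact hB j ω)
      _ = K := by simp
  set D : ℕ → Ω → ℝ := fun j ω => B j ω - ∫ ω', B j ω' ∂P with hD
  have hDb : ∀ j ω, |D j ω| ≤ 2 * K := fun j ω => by
    have := abs_sub (B j ω) (∫ ω', B j ω' ∂P)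
    have h1 := hB j ω
    have h2 := hmean j
    simp only [hD]
    linarith
  set S : ℕ → Ω → ℝ := fun n ω => ∑ j ∈ range n, D j ω with hS
  have hDm : ∀ j, AEStronglyMeasurable (D j) P := fun j => (hm j).sub aestronglyMeasurable_const
  have hSm : ∀ n, AEStronglyMeasurable (S n) P := fun n =>
    Finset.aestronglyMeasurable_fun_sum _ fun j _ => hDm j
  have hSb : ∀ n ω, |S n ω| ≤ 2 * K * n := by
    intro n ω
    calc |S n ω| ≤ ∑ j ∈ range n, |D j ω| := Finset.abs_sum_le_sum_abs _ _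
      _ ≤ ∑ _j ∈ range n, 2 * K := Finset.sum_le_sum fun j _ => hDb j ω
      _ = 2 * K * n := by simp; ring
  -- second moments
  have hvar : ∀ n, ∫ ω, (S n ω) ^ 2 ∂P ≤ K ^ 2 * n := by
    intro n
    have h1 : variance (∑ j ∈ range n, B j) P = ∑ j ∈ range n, variance (B j) P :=
      IndepFun.variance_sum (fun j _ => hmem j) (fun i _ j _ hij => hind hij)
    have h2 : variance (∑ j ∈ range n, B j) P = ∫ ω, (S n ω) ^ 2 ∂P := by
      rw [variance_eq_integral]
      · congr 1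
        funext ω
        congr 1
        simp only [Finset.sum_apply, hS, hD, Finset.sum_sub_distrib]
        rw [integral_finsetSum _ (fun j _ => hintB j)]
      · have : (∑ j ∈ range n, B j) = fun ω => ∑ j ∈ range n, B j ω := by
          funext ω; simp
        rw [this]
        exact (Finset.aestronglyMeasurable_fun_sum _ fun j _ => hm j).aemeasurable
    rw [← h2, h1]
    calc ∑ j ∈ range n, variance (B j) P ≤ ∑ _j ∈ range n, K ^ 2 := by
          refine Finset.sum_le_sum fun j _ => ?_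
          refine le_trans (variance_le_expectation_sq (hm j)) ?_
          calc ∫ ω, ((B j) ^ 2) ω ∂P ≤ ∫ _ω, K ^ 2 ∂P := by
                refine integral_mono_of_nonneg (Eventually.of_forall fun ω => sq_nonneg _)
                  (integrable_const _) (Eventually.of_forall fun ω => ?_)
                simp only [Pi.pow_apply]
                rw [← sq_abs]
                exact pow_le_pow_left₀ (abs_nonneg _) (hB j ω) 2
            _ = K ^ 2 := by simp
      _ = K ^ 2 * n := by simp; ring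
  -- along squares
  have hsq : ∀ᵐ ω ∂P, Tendsto (fun k : ℕ => (S ((k + 1) ^ 2) ω / ((k : ℝ) + 1) ^ 2) ^ 2)
      atTop (𝓝 0) := by
    refine ae_tendsto_zero_of_summable (a := fun k : ℕ => K ^ 2 * (1 / ((k : ℝ) + 1) ^ 2))
      (fun k ω => sq_nonneg _) ?_ ?_ ?_
    · intro k
      have hb : ∀ ω, ‖(S ((k + 1) ^ 2) ω / ((k : ℝ) + 1) ^ 2) ^ 2‖ ≤
          (2 * K * ((k + 1) ^ 2 : ℕ) / ((k : ℝ) + 1) ^ 2) ^ 2 := by
        intro ω
        rw [Real.norm_eq_abs, abs_pow, abs_div, abs_of_pos (by positivity : (0 : ℝ) < ((k : ℝ) + 1) ^ 2)]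
        apply pow_le_pow_left₀ (by positivity)
        exact div_le_div_of_nonneg_right (hSb _ ω) (by positivity)
      refine Integrable.of_bound ?_ _ (Eventually.of_forall hb)
      exact ((hSm _).mul_const (((k : ℝ) + 1) ^ 2)⁻¹).pow 2
    · intro k
      simp only [div_pow]
      rw [integral_div, div_le_iff₀ (by positivity)]
      refine le_trans (hvar _) ?_
      push_cast
      have : (0 : ℝ) < (k : ℝ) + 1 := by positivity
      apply le_of_eq
      field_simp
    · apply Summable.mul_left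
      have := (summable_nat_add_iff 1).2 (Real.summable_one_div_nat_pow.2 (by norm_num : 1 < 2))
      simpa using this
  filter_upwards [hsq] with ω hω
  -- take square roots
  have hω1 : Tendsto (fun k : ℕ => |S ((k + 1) ^ 2) ω| / ((k : ℝ) + 1) ^ 2) atTop (𝓝 0) := by
    have h1 := (Real.continuous_sqrt.tendsto 0).comp hω
    rw [Real.sqrt_zero] at h1
    refine h1.congr fun k => ?_
    simp only [Function.comp_def]
    rw [Real.sqrt_sq_eq_abs, abs_div, abs_of_pos (by positivity : (0 : ℝ) < ((k : ℝ) + 1) ^ 2)]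
  -- fill the gaps
  rw [Metric.tendsto_atTop]
  intro η hη
  rw [Metric.tendsto_atTop] at hω1
  obtain ⟨N₁, hN₁⟩ := hω1 (η / 2) (by positivity)
  obtain ⟨N₂, hN₂⟩ := exists_nat_gt (12 * K / η)
  refine ⟨(N₁ + N₂ + 2) ^ 2, fun n hn => ?_⟩
  set k := Nat.sqrt n with hk
  have hk1 : N₁ + N₂ + 2 ≤ k := by
    rw [hk, Nat.le_sqrt']
    exact hn
  have hk2 : k ^ 2 ≤ n := Nat.sqrt_le' n
  have hk3 : n < (k + 1) ^ 2 := Nat.lt_succ_sqrt' n
  have hk0 : 0 < k := by omega
  have hkR : (0 : ℝ) < k := by exact_mod_cast hk0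
  have hn0 : 0 < n := lt_of_lt_of_le (by positivity) hk2
  have hnR : (0 : ℝ) < n := by exact_mod_cast hn0
  have e1 : S n ω - S (k ^ 2) ω = ∑ j ∈ Finset.Ico (k ^ 2) n, D j ω := by
    simp only [hS]
    rw [Finset.sum_Ico_eq_sub _ hk2]
  have e2 : |S n ω| ≤ |S (k ^ 2) ω| + 2 * K * (2 * k) := by
    have h3 : |S n ω - S (k ^ 2) ω| ≤ 2 * K * (2 * k) := by
      rw [e1]
      calc |∑ j ∈ Finset.Ico (k ^ 2) n, D j ω| ≤ ∑ j ∈ Finset.Ico (k ^ 2) n, |D j ω| :=
            Finset.abs_sum_le_sum_abs _ _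
        _ ≤ ∑ _j ∈ Finset.Ico (k ^ 2) n, 2 * K := Finset.sum_le_sum fun j _ => hDb j ω
        _ = 2 * K * ((n - k ^ 2 : ℕ) : ℝ) := by simp; ring
        _ ≤ 2 * K * (2 * k) := by
          apply mul_le_mul_of_nonneg_left _ (by positivity)
          have : n - k ^ 2 ≤ 2 * k := by
            have : n < k ^ 2 + 2 * k + 1 := by nlinarith
            omega
          exact_mod_cast this
    have h4 : S n ω = (S n ω - S (k ^ 2) ω) + S (k ^ 2) ω := by ring
    calc |S n ω| = |(S n ω - S (k ^ 2) ω) + S (k ^ 2) ω| := by rw [← h4]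
      _ ≤ |S n ω - S (k ^ 2) ω| + |S (k ^ 2) ω| := abs_add_le _ _
      _ ≤ _ := by linarith
  have e3 : |S (k ^ 2) ω| / (k : ℝ) ^ 2 < η / 2 := by
    have h5 := hN₁ (k - 1) (by omega)
    have h6 : k - 1 + 1 = k := by omega
    have h7 : (((k - 1 : ℕ) : ℝ) + 1) = k := by
      rw [← Nat.cast_add_one, h6]
    rw [h6, h7, Real.dist_0_eq_abs, abs_of_nonneg (by positivity)] at h5
    exact h5
  rw [Real.dist_0_eq_abs, abs_div, abs_of_pos hnR]
  have e4 : |S n ω| / n ≤ |S (k ^ 2) ω| / (k : ℝ) ^ 2 + 4 * K / k := by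
    calc |S n ω| / n ≤ (|S (k ^ 2) ω| + 2 * K * (2 * k)) / n :=
          div_le_div_of_nonneg_right e2 hnR.le
      _ ≤ (|S (k ^ 2) ω| + 2 * K * (2 * k)) / (k : ℝ) ^ 2 := by
          apply div_le_div_of_nonneg_left (by positivity) (by positivity)
          exact_mod_cast hk2
      _ = |S (k ^ 2) ω| / (k : ℝ) ^ 2 + 4 * K / k := by
          field_simp
          ring
  have e5 : 4 * K / k < η / 2 := by
    have h8 : (N₂ : ℝ) ≤ k := by exact_mod_cast (by omega : N₂ ≤ k)
    have h9 : 12 * K / η < k := lt_of_lt_of_le hN₂ h8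
    rw [div_lt_iff₀ hη] at h9
    rw [div_lt_iff₀ hkR]
    nlinarith
  have : |∑ j ∈ range n, (B j ω - ∫ ω', B j ω' ∂P)| = |S n ω| := rfl
  rw [this]
  linarith

end real

section banach
variable {Z : Type*} [NormedAddCommGroup Z] [NormedSpace ℝ Z] [CompleteSpace Z]
  [MeasurableSpace Z] [BorelSpace Z]
variable {Ω : Type*} [mΩ : MeasurableSpace Ω] {P : Measure Ω} [IsProbabilityMeasure P]

/-- Pairwise independence of norms of block sums. -/
lemma indep_blocks {F : ℕ → Ω → Z} (hmeas : ∀ n, Measurable (F n))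
    (hF : ∀ n, Integrable (F n) P) (hind : iIndepFun F P) {m : ℕ} (a : ℕ → Z) :
    Pairwise fun i j => IndepFun (fun ω => ‖∑ k : Fin m, (F (i * m + k) ω - a (i * m + k))‖)
      (fun ω => ‖∑ k : Fin m, (F (j * m + k) ω - a (j * m + k))‖) P := by
  -- strongly measurable modifications
  set g : ℕ → Z → Z := fun n => (aesm_id_map (hF n).aestronglyMeasurable).mk (fun z => z) with hg
  have hgm : ∀ n, StronglyMeasurable (g n) := fun n =>
    (aesm_id_map (hF n).aestronglyMeasurable).stronglyMeasurable_mk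
  have hge : ∀ n, ∀ᵐ ω ∂P, F n ω = g n (F n ω) := fun n =>
    ae_of_ae_map (hmeas n).aemeasurable (aesm_id_map (hF n).aestronglyMeasurable).ae_eq_mk
  set ms : ℕ → MeasurableSpace Ω := fun n => MeasurableSpace.comap (F n) inferInstance with hms
  have hle : ∀ n, ms n ≤ mΩ := fun n => (hmeas n).comap_le
  have hsm : ∀ n, StronglyMeasurable[ms n] (fun ω => g n (F n ω)) := fun n =>
    (hgm n).comp_measurable (comap_measurable (F n))
  have hiI : iIndep ms P := hind.iIndep
  intro i j hij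
  set T : ℕ → Set ℕ := fun i => {n | n / m = i} with hT
  rcases Nat.eq_zero_or_pos m with hm0 | hm0
  · subst hm0
    simp only [Finset.univ_eq_empty, Finset.sum_empty, norm_zero]
    exact indepFun_const_left _ _
  have hdisj : Disjoint (T i) (T j) := by
    rw [Set.disjoint_left]
    intro n hn hn'
    exact hij (hn.symm.trans hn')
  have hI := indep_iSup_of_disjoint hle hiI hdisj
  have hmb : ∀ i, Measurable[⨆ n ∈ T i, ms n]
      (fun ω => ‖∑ k : Fin m, (g (i * m + k) (F (i * m + k) ω) - a (i * m + k))‖) := by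
    intro i
    have h1 : ∀ k : Fin m, StronglyMeasurable[⨆ n ∈ T i, ms n]
        (fun ω => g (i * m + k) (F (i * m + k) ω)) := by
      intro k
      refine (hsm (i * m + k)).mono ?_
      have hmem : i * m + (k : ℕ) ∈ T i := by
        simp only [hT, Set.mem_setOf_eq]
        rw [mul_comm, Nat.mul_add_div hm0, Nat.div_eq_of_lt k.2, add_zero]
      exact le_iSup₂_of_le (i * m + (k : ℕ)) hmem le_rfl
    have h2 : StronglyMeasurable[⨆ n ∈ T i, ms n]
        (fun ω => ∑ k : Fin m, (g (i * m + k) (F (i * m + k) ω) - a (i * m + k))) :=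
      Finset.stronglyMeasurable_fun_sum _ fun k _ => (h1 k).sub stronglyMeasurable_const
    exact h2.norm.measurable
  have hIF : IndepFun
      (fun ω => ‖∑ k : Fin m, (g (i * m + k) (F (i * m + k) ω) - a (i * m + k))‖)
      (fun ω => ‖∑ k : Fin m, (g (j * m + k) (F (j * m + k) ω) - a (j * m + k))‖) P := by
    rw [IndepFun_iff_Indep]
    exact indep_of_indep_of_le hI (hmb i).comap_le (hmb j).comap_le
  have hae : ∀ i, (fun ω => ‖∑ k : Fin m, (g (i * m + k) (F (i * m + k) ω) - a (i * m + k))‖)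
      =ᵐ[P] (fun ω => ‖∑ k : Fin m, (F (i * m + k) ω - a (i * m + k))‖) := by
    intro i
    have h3 : ∀ᵐ ω ∂P, ∀ n, F n ω = g n (F n ω) := ae_all_iff.2 hge
    filter_upwards [h3] with ω hω
    congr 1
    refine Finset.sum_congr rfl fun k _ => ?_
    rw [← hω]
  exact hIF.congr (hae i) (hae j)

/-- Strong law with a defect, from a Rademacher bound on blocks of a fixed length. -/
lemma slln_block {F : ℕ → Ω → Z} (hmeas : ∀ n, Measurable (F n))
    (hF : ∀ n, Integrable (F n) P) (hind : iIndepFun F P) {C : ℝ} (hC : ∀ n ω, ‖F n ω‖ ≤ C)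
    {m : ℕ} (hm : 0 < m) {β : ℝ}
    (hblock : ∀ (s : Fin m → ℕ) (ω : Ω), av (fun ε => ‖∑ k, sg (ε k) • F (s k) ω‖) ≤ β * m) :
    ∀ᵐ ω ∂P, ∀ η : ℝ, 0 < η → ∀ᶠ n : ℕ in atTop,
      ‖∑ i ∈ range n, (F i ω - ∫ ω', F i ω' ∂P)‖ ≤ (2 * β + η) * n := by
  set a : ℕ → Z := fun i => ∫ ω', F i ω' ∂P with ha
  have hΩ : Nonempty Ω := by
    by_contra h
    rw [not_nonempty_iff] at h
    have := measure_univ (μ := P)
    rw [Measure.eq_zero_of_isEmpty P] at this
    simp at this
  obtain ⟨ω₀⟩ := hΩ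
  have hC0 : 0 ≤ C := le_trans (norm_nonneg _) (hC 0 ω₀)
  have haC : ∀ i, ‖a i‖ ≤ C := by
    intro i
    refine le_trans (norm_integral_le_integral_norm _) ?_
    calc ∫ ω, ‖F i ω‖ ∂P ≤ ∫ _ω, C ∂P :=
          integral_mono (hF i).norm (integrable_const _) (fun ω => hC i ω)
      _ = C := by simp
  have hDC : ∀ i ω, ‖F i ω - a i‖ ≤ 2 * C := fun i ω => by
    have h1 := norm_sub_le (F i ω) (a i)
    have h2 := hC i ω
    have h3 := haC i
    linarith
  set B : ℕ → Ω → ℝ := fun j ω => ‖∑ k : Fin m, (F (j * m + k) ω - a (j * m + k))‖ with hB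
  have hBb : ∀ j ω, |B j ω| ≤ m * (2 * C) := by
    intro j ω
    rw [abs_of_nonneg (norm_nonneg _)]
    calc B j ω ≤ ∑ k : Fin m, ‖F (j * m + k) ω - a (j * m + k)‖ := norm_sum_le _ _
      _ ≤ ∑ _k : Fin m, 2 * C := Finset.sum_le_sum fun k _ => hDC _ ω
      _ = m * (2 * C) := by simp
  have hBm : ∀ j, AEStronglyMeasurable (B j) P := fun j =>
    (Finset.aestronglyMeasurable_fun_sum _ fun k _ =>
      (hF _).aestronglyMeasurable.sub aestronglyMeasurable_const).norm
  have hmR : (0 : ℝ) < m := by exact_mod_cast hm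
  -- expectation of block norms
  have hEB : ∀ j, ∫ ω, B j ω ∂P ≤ 2 * β * m := by
    intro j
    have hinj : Function.Injective (fun k : Fin m => j * m + (k : ℕ)) := by
      intro k l hkl
      simp only at hkl
      exact Fin.ext (by omega)
    have hindb : iIndepFun (fun k : Fin m => F (j * m + (k : ℕ))) P := hind.precomp hinj
    have h1 : ∀ ε : Fin m → Bool, ∫ ω, B j ω ∂P ≤
        2 * ∫ ω, ‖∑ k : Fin m, sg (ε k) • F (j * m + (k : ℕ)) ω‖ ∂P := fun ε =>
      symm_family (fun k : Fin m => F (j * m + (k : ℕ))) (fun k => hF _) hindb ε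
    have h2 : ∫ ω, B j ω ∂P ≤ av (fun ε : Fin m → Bool =>
        2 * ∫ ω, ‖∑ k : Fin m, sg (ε k) • F (j * m + (k : ℕ)) ω‖ ∂P) := by
      calc ∫ ω, B j ω ∂P = av (fun _ : Fin m → Bool => ∫ ω, B j ω ∂P) := (av_const _).symm
        _ ≤ _ := av_mono h1
    rw [av_mul] at h2
    have hi : ∀ ε : Fin m → Bool, Integrable
        (fun ω => ‖∑ k : Fin m, sg (ε k) • F (j * m + (k : ℕ)) ω‖) P := fun ε =>
      (integrable_finsetSum _ fun k _ => (hF _).smul (sg (ε k))).norm
    have h3 : av (fun ε : Fin m → Bool =>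
        ∫ ω, ‖∑ k : Fin m, sg (ε k) • F (j * m + (k : ℕ)) ω‖ ∂P) =
        ∫ ω, av (fun ε : Fin m → Bool => ‖∑ k : Fin m, sg (ε k) • F (j * m + (k : ℕ)) ω‖) ∂P := by
      unfold av
      rw [integral_div, integral_finsetSum _ (fun ε _ => hi ε)]
    have h4 : ∫ ω, av (fun ε : Fin m → Bool => ‖∑ k : Fin m, sg (ε k) • F (j * m + (k : ℕ)) ω‖) ∂P
        ≤ β * m := by
      calc _ ≤ ∫ _ω, β * m ∂P := by
            refine integral_mono_of_nonneg (Eventually.of_forall fun ω =>
              av_nonneg fun ε => norm_nonneg _) (integrable_const _)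
              (Eventually.of_forall fun ω => hblock (fun k => j * m + k) ω)
        _ = β * m := by simp
    rw [h3] at h2
    linarith
  have hslln := slln_real hBb hBm (indep_blocks hmeas hF hind a)
  filter_upwards [hslln] with ω hω
  intro η hη
  -- bound by block sums
  have hsum : ∀ J : ℕ, ‖∑ i ∈ range (J * m), (F i ω - a i)‖ ≤ ∑ j ∈ range J, B j ω := by
    intro J
    induction J with
    | zero => simp
    | succ J ih =>
      rw [Nat.succ_mul, Finset.sum_range_add, Finset.sum_range_succ (fun j => B j ω)]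
      refine le_trans (norm_add_le _ _) (add_le_add ih (le_of_eq ?_))
      simp only [hB]
      rw [Finset.sum_range (fun k => F (J * m + k) ω - a (J * m + k))]
  have hn : ∀ n : ℕ, ‖∑ i ∈ range n, (F i ω - a i)‖ ≤
      ∑ j ∈ range (n / m), B j ω + m * (2 * C) := by
    intro n
    have e1 : n = (n / m) * m + n % m := (Nat.div_add_mod' n m).symm
    conv_lhs => rw [e1]
    rw [Finset.sum_range_add]
    refine le_trans (norm_add_le _ _) (add_le_add (hsum _) ?_)
    calc ‖∑ x ∈ range (n % m), (F (n / m * m + x) ω - a (n / m * m + x))‖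
        ≤ ∑ x ∈ range (n % m), ‖F (n / m * m + x) ω - a (n / m * m + x)‖ := norm_sum_le _ _
      _ ≤ ∑ _x ∈ range (n % m), 2 * C := Finset.sum_le_sum fun x _ => hDC _ ω
      _ = (n % m : ℕ) * (2 * C) := by simp
      _ ≤ m * (2 * C) := by
        apply mul_le_mul_of_nonneg_right _ (by positivity)
        exact_mod_cast (Nat.mod_lt n hm).le
  rw [Metric.tendsto_atTop] at hω
  obtain ⟨N₁, hN₁⟩ := hω (η / 2 * m) (by positivity)
  obtain ⟨N₂, hN₂⟩ := exists_nat_gt (m * (2 * C) / (η / 2))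
  filter_upwards [eventually_ge_atTop ((N₁ + 1) * m), eventually_ge_atTop N₂,
    eventually_gt_atTop 0] with n hn1 hn2 hn0
  have hJ : N₁ + 1 ≤ n / m := by
    rw [Nat.le_div_iff_mul_le hm]
    exact hn1
  set J := n / m with hJd
  have hJ0 : 0 < J := by omega
  have hJR : (0 : ℝ) < J := by exact_mod_cast hJ0
  have hJn : (J : ℝ) * m ≤ n := by exact_mod_cast Nat.div_mul_le_self n m
  have h5 := hN₁ J (by omega)
  rw [Real.dist_0_eq_abs, abs_div, abs_of_pos hJR, div_lt_iff₀ hJR] at h5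
  have h6 := lt_of_le_of_lt (le_abs_self _) h5
  rw [Finset.sum_sub_distrib] at h6
  have h7 : ∑ j ∈ range J, ∫ ω', B j ω' ∂P ≤ J * (2 * β * m) := by
    calc ∑ j ∈ range J, ∫ ω', B j ω' ∂P ≤ ∑ _j ∈ range J, 2 * β * m :=
          Finset.sum_le_sum fun j _ => hEB j
      _ = J * (2 * β * m) := by simp
  have h8 : ∑ j ∈ range J, B j ω ≤ (2 * β + η / 2) * (J * m) := by
    nlinarith
  have hβ0 : 0 ≤ 2 * β + η / 2 := by
    have : 0 ≤ β * m := le_trans (av_nonneg fun ε => norm_nonneg _) (hblock (fun _ => 0) ω₀)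
    have : 0 ≤ β := nonneg_of_mul_nonneg_left this hmR
    positivity
  have h9 : (m : ℝ) * (2 * C) ≤ η / 2 * n := by
    have : (N₂ : ℝ) ≤ n := by exact_mod_cast hn2
    have h10 : m * (2 * C) / (η / 2) < n := lt_of_lt_of_le hN₂ this
    rw [div_lt_iff₀ (by positivity)] at h10
    linarith
  calc ‖∑ i ∈ range n, (F i ω - a i)‖ ≤ ∑ j ∈ range J, B j ω + m * (2 * C) := hn n
    _ ≤ (2 * β + η / 2) * (J * m) + η / 2 * n := add_le_add h8 h9
    _ ≤ (2 * β + η / 2) * n + η / 2 * n := by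
        have := mul_le_mul_of_nonneg_left hJn hβ0
        linarith
    _ = (2 * β + η) * n := by ring

/-- The strong law from small Rademacher averages on blocks. -/
lemma slln_banach {F : ℕ → Ω → Z} (hmeas : ∀ n, Measurable (F n))
    (hF : ∀ n, Integrable (F n) P) (hind : iIndepFun F P) {C : ℝ} (hC : ∀ n ω, ‖F n ω‖ ≤ C)
    (hblock : ∀ β : ℝ, 0 < β → ∃ m : ℕ, 0 < m ∧
      ∀ (s : Fin m → ℕ) (ω : Ω), av (fun ε => ‖∑ k, sg (ε k) • F (s k) ω‖) ≤ β * m) :
    ∀ᵐ ω ∂P, Tendsto (fun n : ℕ => (n : ℝ)⁻¹ * ‖∑ i ∈ range n, (F i ω - ∫ ω', F i ω' ∂P)‖)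
      atTop (𝓝 0) := by
  have h1 : ∀ k : ℕ, ∀ᵐ ω ∂P, ∀ η : ℝ, 0 < η → ∀ᶠ n : ℕ in atTop,
      ‖∑ i ∈ range n, (F i ω - ∫ ω', F i ω' ∂P)‖ ≤ (2 * (1 / ((k : ℝ) + 1)) + η) * n := by
    intro k
    obtain ⟨m, hm, hmb⟩ := hblock (1 / ((k : ℝ) + 1)) (by positivity)
    exact slln_block hmeas hF hind hC hm hmb
  filter_upwards [ae_all_iff.2 h1] with ω hω
  rw [Metric.tendsto_atTop]
  intro η hη
  obtain ⟨k, hk⟩ := exists_nat_one_div_lt (by positivity : (0 : ℝ) < η / 4)
  obtain ⟨N, hN⟩ := eventually_atTop.1 (hω k (η / 4) (by positivity))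
  refine ⟨N + 1, fun n hn => ?_⟩
  have h2 := hN n (by omega)
  have hnR : (0 : ℝ) < n := by exact_mod_cast (by omega : 0 < n)
  rw [Real.dist_0_eq_abs, abs_of_nonneg (by positivity)]
  calc (n : ℝ)⁻¹ * ‖∑ i ∈ range n, (F i ω - ∫ ω', F i ω' ∂P)‖
      ≤ (n : ℝ)⁻¹ * ((2 * (1 / ((k : ℝ) + 1)) + η / 4) * n) :=
        mul_le_mul_of_nonneg_left h2 (by positivity)
    _ = 2 * (1 / ((k : ℝ) + 1)) + η / 4 := by
        field_simp
    _ < η := by linarith

end banach

end Pool.Agent.Q298.Rset
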