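import Mathlib
import Pool.Agent.Q298.Rset.Signs
import Pool.Agent.Q298.Rset.Contr

open Finset Filter Topology
open scoped Pointwise BoundedContinuousFunction

namespace Pool.Agent.Q298.Rset

variable {X : Type*} [NormedAddCommGroup X] [NormedSpace ℝ X]

/-- Nonempty bounded convex subsets. -/
structure BC (X : Type*) [NormedAddCommGroup X] [NormedSpace ℝ X] where
  /-- the underlying set -/
  carrier : Set X
  nonempty : carrier.Nonempty
  bounded : Bornology.IsBounded carrier
  convex : Convex ℝ carrier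

/-- The support function of a set. -/
noncomputable def supp (A : Set X) (f : StrongDual ℝ X) : ℝ := sSup (f '' A)

lemma exists_bound (A : BC X) : ∃ r : ℝ, 0 ≤ r ∧ ∀ a ∈ A.carrier, ‖a‖ ≤ r := by
  obtain ⟨r, hr⟩ := A.bounded.exists_norm_le
  obtain ⟨a, ha⟩ := A.nonempty
  exact ⟨r, le_trans (norm_nonneg _) (hr a ha), hr⟩

section
variable {A : Set X} {r : ℝ}

lemma bdd_image (hr : ∀ a ∈ A, ‖a‖ ≤ r) (f : StrongDual ℝ X) : BddAbove (f '' A) := by
  refine ⟨‖f‖ * r, ?_⟩
  rintro _ ⟨a, ha, rfl⟩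
  calc f a ≤ ‖f a‖ := le_abs_self _
    _ ≤ ‖f‖ * ‖a‖ := f.le_opNorm a
    _ ≤ ‖f‖ * r := mul_le_mul_of_nonneg_left (hr a ha) (norm_nonneg _)

lemma le_supp (hr : ∀ a ∈ A, ‖a‖ ≤ r) (f : StrongDual ℝ X) {a : X} (ha : a ∈ A) :
    f a ≤ supp A f := le_csSup (bdd_image hr f) ⟨a, ha, rfl⟩

lemma supp_le (hne : A.Nonempty) (f : StrongDual ℝ X) {c : ℝ} (h : ∀ a ∈ A, f a ≤ c) :
    supp A f ≤ c := by
  refine csSup_le (hne.image _) ?_
  rintro _ ⟨a, ha, rfl⟩
  exact h a ha

lemma abs_supp_le (hne : A.Nonempty) (hr : ∀ a ∈ A, ‖a‖ ≤ r) (f : StrongDual ℝ X) :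
    |supp A f| ≤ r * ‖f‖ := by
  obtain ⟨a, ha⟩ := hne
  rw [abs_le]
  constructor
  · have h1 := le_supp hr f ha
    have h2 : -(r * ‖f‖) ≤ f a := by
      have := f.le_opNorm a
      have h3 : ‖f‖ * ‖a‖ ≤ ‖f‖ * r := mul_le_mul_of_nonneg_left (hr a ha) (norm_nonneg _)
      rw [Real.norm_eq_abs] at this
      have h4 := neg_le_of_abs_le (le_trans this h3)
      linarith
    linarith
  · refine supp_le ⟨a, ha⟩ f fun b hb => ?_
    calc f b ≤ ‖f b‖ := le_abs_self _
      _ ≤ ‖f‖ * ‖b‖ := f.le_opNorm b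
      _ ≤ ‖f‖ * r := mul_le_mul_of_nonneg_left (hr b hb) (norm_nonneg _)
      _ = r * ‖f‖ := mul_comm _ _

lemma supp_sub_le (hne : A.Nonempty) (hr : ∀ a ∈ A, ‖a‖ ≤ r) (f g : StrongDual ℝ X) {c : ℝ}
    (h : ∀ a ∈ A, |f a - g a| ≤ c) : |supp A f - supp A g| ≤ c := by
  rw [abs_le]
  constructor
  · have : supp A g ≤ supp A f + c := supp_le hne g fun a ha => by
      have h1 := le_supp hr f ha
      have h2 := (abs_le.1 (h a ha)).1
      linarith
    linarith
  · have : supp A f ≤ supp A g + c := supp_le hne f fun a ha => by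
      have h1 := le_supp hr g ha
      have h2 := (abs_le.1 (h a ha)).2
      linarith
    linarith

lemma supp_zero (hne : A.Nonempty) : supp A (0 : StrongDual ℝ X) = 0 := by
  unfold supp
  have : ((0 : StrongDual ℝ X) '' A) = {0} := by
    ext y
    constructor
    · rintro ⟨a, -, rfl⟩
      simp
    · rintro rfl
      obtain ⟨a, ha⟩ := hne
      exact ⟨a, ha, by simp⟩
  rw [this, csSup_singleton]

lemma continuous_supp (hne : A.Nonempty) (hr : ∀ a ∈ A, ‖a‖ ≤ r) : Continuous (supp A) := by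
  have hr0 : 0 ≤ r := by
    obtain ⟨a, ha⟩ := hne
    exact le_trans (norm_nonneg _) (hr a ha)
  refine (LipschitzWith.of_dist_le_mul (K := ⟨r, hr0⟩) ?_).continuous
  intro f g
  rw [Real.dist_eq, dist_eq_norm]
  refine supp_sub_le hne hr f g fun a ha => ?_
  have := (f - g).le_opNorm a
  rw [sub_apply, Real.norm_eq_abs] at this
  refine le_trans this ?_
  rw [mul_comm]
  exact mul_le_mul_of_nonneg_right (hr a ha) (norm_nonneg _)

lemma supp_add {B : Set X} {s : ℝ} (hA : A.Nonempty) (hB : B.Nonempty) (hr : ∀ a ∈ A, ‖a‖ ≤ r)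
    (hs : ∀ b ∈ B, ‖b‖ ≤ s) (f : StrongDual ℝ X) : supp (A + B) f = supp A f + supp B f := by
  unfold supp
  rw [Set.image_add, csSup_add (hA.image _) (bdd_image hr f) (hB.image _) (bdd_image hs f)]

lemma supp_smul (f : StrongDual ℝ X) {t : ℝ} (ht : 0 ≤ t) :
    supp (t • A) f = t * supp A f := by
  unfold supp
  have : f '' (t • A) = t • (f '' A) := by
    rw [image_smul_set]
  rw [this, Real.sSup_smul_of_nonneg ht, smul_eq_mul]

end

/-- The unit sphere of the dual. -/
abbrev Sph (X : Type*) [NormedAddCommGroup X] [NormedSpace ℝ X] : Type _ :=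
  Metric.sphere (0 : StrongDual ℝ X) 1

/-- The support function as a bounded continuous function on the dual sphere. -/
noncomputable def R (A : BC X) : Sph X →ᵇ ℝ :=
  BoundedContinuousFunction.ofNormedAddCommGroup (fun f : Sph X => supp A.carrier f.1)
    ((continuous_supp A.nonempty (exists_bound A).choose_spec.2).comp continuous_subtype_val)
    (exists_bound A).choose
    (fun f => by
      have h := abs_supp_le A.nonempty (exists_bound A).choose_spec.2 f.1
      have hf : ‖f.1‖ = 1 := by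
        have := f.2
        rwa [mem_sphere_zero_iff_norm] at this
      rw [hf, mul_one] at h
      exact h)

@[simp] lemma R_apply (A : BC X) (f : Sph X) : R A f = supp A.carrier f.1 := rfl

/-- Minkowski addition. -/
def BC.add (A B : BC X) : BC X where
  carrier := A.carrier + B.carrier
  nonempty := A.nonempty.add B.nonempty
  bounded := A.bounded.add B.bounded
  convex := A.convex.add B.convex

/-- Scaling. -/
def BC.smul (t : ℝ) (A : BC X) : BC X where
  carrier := t • A.carrier
  nonempty := A.nonempty.smul_set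
  bounded := A.bounded.smul₀ t
  convex := A.convex.smul t

/-- The origin. -/
def BC.zero : BC X where
  carrier := {0}
  nonempty := Set.singleton_nonempty _
  bounded := Bornology.isBounded_singleton
  convex := convex_singleton _

lemma R_add (A B : BC X) : R (A.add B) = R A + R B := by
  ext f
  obtain ⟨r, -, hr⟩ := exists_bound A
  obtain ⟨s, -, hs⟩ := exists_bound B
  exact supp_add A.nonempty B.nonempty hr hs f.1

lemma R_smul {t : ℝ} (ht : 0 ≤ t) (A : BC X) : R (A.smul t) = t • R A := by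
  ext f
  exact supp_smul f.1 ht

lemma R_zero : R (BC.zero : BC X) = 0 := by
  ext f
  show supp ({0} : Set X) f.1 = 0
  unfold supp
  simp

lemma exists_sum (A : ℕ → BC X) (n : ℕ) : ∃ C : BC X,
    C.carrier = ∑ i ∈ range n, (A i).carrier ∧ R C = ∑ i ∈ range n, R (A i) := by
  induction n with
  | zero => exact ⟨BC.zero, by simp [BC.zero, Set.singleton_zero], by simp [R_zero]⟩
  | succ n ih =>
    obtain ⟨C, hC1, hC2⟩ := ih
    refine ⟨C.add (A n), ?_, ?_⟩
    · rw [Finset.sum_range_succ, ← hC1]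
      rfl
    · rw [R_add, Finset.sum_range_succ, hC2]

lemma exists_avg (A : ℕ → BC X) (n : ℕ) : ∃ C : BC X,
    C.carrier = (n : ℝ)⁻¹ • ∑ i ∈ range n, (A i).carrier ∧
      R C = (n : ℝ)⁻¹ • ∑ i ∈ range n, R (A i) := by
  obtain ⟨C, hC1, hC2⟩ := exists_sum A n
  refine ⟨C.smul (n : ℝ)⁻¹, ?_, ?_⟩
  · rw [← hC1]; rfl
  · rw [R_smul (by positivity), hC2]

/-- One half of the Hörmander isometry. -/
lemma infDist_le (A B : BC X) {a : X} (ha : a ∈ A.carrier) :
    Metric.infDist a B.carrier ≤ ‖R A - R B‖ := by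
  by_contra hlt
  push Not at hlt
  obtain ⟨s, hs1, hs2⟩ := exists_between hlt
  obtain ⟨s', hs3, hs4⟩ := exists_between hs2
  have hs0 : 0 < s := lt_of_le_of_lt (norm_nonneg _) hs1
  have hdisj : Disjoint (Metric.ball a s') B.carrier := by
    rw [Set.disjoint_left]
    intro y hy hyB
    have h1 := Metric.infDist_le_dist_of_mem (x := a) hyB
    rw [Metric.mem_ball, dist_comm] at hy
    linarith
  obtain ⟨f, u, hf1, hf2⟩ := geometric_hahn_banach_open (convex_ball a s') Metric.isOpen_ball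
    B.convex hdisj
  obtain ⟨b₀, hb₀⟩ := B.nonempty
  have hfa : f a < u := hf1 a (Metric.mem_ball_self (by linarith))
  have hkey : ∀ x : X, s * f x ≤ (u - f a) * ‖x‖ := by
    intro x
    rcases eq_or_ne x 0 with rfl | hx
    · simp
    have hx0 : 0 < ‖x‖ := norm_pos_iff.2 hx
    have hmem : a + (s / ‖x‖) • x ∈ Metric.ball a s' := by
      rw [Metric.mem_ball, dist_eq_norm, add_sub_cancel_left, norm_smul, Real.norm_eq_abs,
        abs_of_pos (by positivity), div_mul_cancel₀ _ hx0.ne']
      exact hs3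
    have h2 := hf1 _ hmem
    rw [map_add, map_smul, smul_eq_mul] at h2
    have h3 : s / ‖x‖ * f x < u - f a := by linarith
    have h4 : s * f x = (s / ‖x‖ * f x) * ‖x‖ := by
      field_simp
    rw [h4]
    exact mul_le_mul_of_nonneg_right h3.le hx0.le
  have hnorm : ‖f‖ ≤ (u - f a) / s := by
    refine f.opNorm_le_bound (by apply div_nonneg <;> linarith) fun x => ?_
    rw [Real.norm_eq_abs, abs_le]
    have h5 := hkey x
    have h6 := hkey (-x)
    rw [map_neg, norm_neg] at h6
    constructor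
    · rw [div_mul_eq_mul_div, neg_le, le_div_iff₀ hs0]
      linarith
    · rw [div_mul_eq_mul_div, le_div_iff₀ hs0]
      linarith
  have hf0 : 0 < ‖f‖ := by
    rw [norm_pos_iff]
    rintro rfl
    have := hf2 b₀ hb₀
    simp at this hfa
    linarith
  rw [le_div_iff₀ hs0] at hnorm
  -- the normalized functional
  have hg : (-(‖f‖⁻¹ • f) : StrongDual ℝ X) ∈ Metric.sphere (0 : StrongDual ℝ X) 1 := by
    rw [mem_sphere_zero_iff_norm, norm_neg, norm_smul, norm_inv, norm_norm,
      inv_mul_cancel₀ hf0.ne']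
  set g : Sph X := ⟨-(‖f‖⁻¹ • f), hg⟩ with hgdef
  have hga : ∀ x : X, g.1 x = -(‖f‖⁻¹ * f x) := fun x => by
    simp [hgdef]
  obtain ⟨r, -, hr⟩ := exists_bound A
  have hA : -(‖f‖⁻¹ * f a) ≤ supp A.carrier g.1 := by
    rw [← hga]
    exact le_supp hr g.1 ha
  have hB : supp B.carrier g.1 ≤ -(‖f‖⁻¹ * u) := by
    refine supp_le ⟨b₀, hb₀⟩ g.1 fun b hb => ?_
    rw [hga]
    have := mul_le_mul_of_nonneg_left (hf2 b hb) (inv_nonneg.2 hf0.le)
    linarith
  have hdiff : s ≤ (R A - R B) g := by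
    rw [BoundedContinuousFunction.sub_apply, R_apply, R_apply]
    have h7 : s ≤ ‖f‖⁻¹ * (u - f a) := by
      rw [inv_mul_eq_div, le_div_iff₀ hf0]
      linarith
    have h8 : ‖f‖⁻¹ * (u - f a) = ‖f‖⁻¹ * u - ‖f‖⁻¹ * f a := by ring
    linarith
  have hfin := (R A - R B).norm_coe_le_norm g
  rw [Real.norm_eq_abs] at hfin
  have := le_trans hdiff (le_trans (le_abs_self _) hfin)
  linarith

lemma hausdorffDist_le (A B : BC X) :
    Metric.hausdorffDist A.carrier B.carrier ≤ ‖R A - R B‖ := by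
  refine Metric.hausdorffDist_le_of_infDist (norm_nonneg _) (fun a ha => infDist_le A B ha) ?_
  intro b hb
  rw [norm_sub_rev]
  exact infDist_le B A hb

/-- Bounded coordinates for a finite dimensional span. -/
lemma exists_coords : ∀ (N : ℕ) (u : Fin N → X), ∃ v : Fin N → X, (∀ j, ‖v j‖ ≤ 1) ∧
    ∀ b ∈ Submodule.span ℝ (Set.range u), ∃ c : Fin N → ℝ, b = ∑ j, c j • v j ∧
      ∀ j, |c j| ≤ 3 ^ N * ‖b‖ := by
  intro N
  induction N with
  | zero =>
    intro u
    refine ⟨u, fun j => j.elim0, fun b hb => ⟨fun j => j.elim0, ?_, fun j => j.elim0⟩⟩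
    have : Set.range u = ∅ := Set.range_eq_empty u
    rw [this, Submodule.span_empty, Submodule.mem_bot] at hb
    simp [hb]
  | succ N ih =>
    intro u
    set W := Submodule.span ℝ (Set.range (fun j : Fin N => u j.succ)) with hW
    obtain ⟨v, hv1, hv2⟩ := ih (fun j => u j.succ)
    have hspan : ∀ b ∈ Submodule.span ℝ (Set.range u), ∃ (α : ℝ) (w : X), w ∈ W ∧
        b = α • u 0 + w := by
      intro b hb
      have : Set.range u = insert (u 0) (Set.range (fun j : Fin N => u j.succ)) := by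
        ext y
        constructor
        · rintro ⟨j, rfl⟩
          refine Fin.cases ?_ (fun j => ?_) j
          · exact Set.mem_insert _ _
          · exact Set.mem_insert_of_mem _ ⟨j, rfl⟩
        · rintro (rfl | ⟨j, rfl⟩)
          · exact ⟨0, rfl⟩
          · exact ⟨j.succ, rfl⟩
      rw [this, Submodule.mem_span_insert] at hb
      obtain ⟨α, w, hw, rfl⟩ := hb
      exact ⟨α, w, hw, rfl⟩
    have h3 : (1 : ℝ) ≤ 3 ^ N := one_le_pow₀ (by norm_num)
    by_cases hu : u 0 ∈ W
    · refine ⟨Fin.cons 0 v, ?_, ?_⟩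
      · intro j
        refine Fin.cases ?_ (fun j => ?_) j
        · simp
        · simpa using hv1 j
      · intro b hb
        obtain ⟨α, w, hw, rfl⟩ := hspan b hb
        obtain ⟨c, hc1, hc2⟩ := hv2 (α • u 0 + w) (W.add_mem (W.smul_mem _ hu) hw)
        refine ⟨Fin.cons 0 c, ?_, ?_⟩
        · rw [Fin.sum_univ_succ]
          simpa using hc1
        · intro j
          refine Fin.cases ?_ (fun j => ?_) j
          · simp only [Fin.cons_zero, abs_zero]
            positivity
          · simp only [Fin.cons_succ]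
            refine le_trans (hc2 j) ?_
            rw [pow_succ]
            have := norm_nonneg (α • u 0 + w)
            nlinarith
    · have : FiniteDimensional ℝ W := FiniteDimensional.span_of_finite ℝ (Set.finite_range _)
      have hcl : IsClosed (W : Set X) := W.closed_of_finiteDimensional
      have hWne : (W : Set X).Nonempty := ⟨0, W.zero_mem⟩
      have hpos : 0 < Metric.infDist (u 0) (W : Set X) :=
        (hcl.notMem_iff_infDist_pos hWne).1 hu
      obtain ⟨w₀, hw₀, hd⟩ := (Metric.infDist_lt_iff hWne).1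
        (show Metric.infDist (u 0) (W : Set X) < 2 * Metric.infDist (u 0) (W : Set X) by linarith)
      set κ := ‖u 0 - w₀‖ with hκ
      rw [dist_eq_norm, ← hκ] at hd
      have hκ0 : 0 < κ := by
        rw [hκ, norm_pos_iff, sub_ne_zero]
        rintro h
        exact hu (h ▸ hw₀)
      set x₀ := κ⁻¹ • (u 0 - w₀) with hx₀
      refine ⟨Fin.cons x₀ v, ?_, ?_⟩
      · intro j
        refine Fin.cases ?_ (fun j => ?_) j
        · simp only [Fin.cons_zero]
          rw [hx₀, norm_smul, norm_inv, Real.norm_eq_abs, abs_of_pos hκ0, ← hκ,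
            inv_mul_cancel₀ hκ0.ne']
        · simpa using hv1 j
      · intro b hb
        obtain ⟨α, w, hw, rfl⟩ := hspan b hb
        -- size of the top coordinate
        have hα : |α| * κ ≤ 2 * ‖α • u 0 + w‖ := by
          rcases eq_or_ne α 0 with rfl | hα0
          · simp
          have h4 : Metric.infDist (u 0) (W : Set X) ≤ ‖u 0 + α⁻¹ • w‖ := by
            have := Metric.infDist_le_dist_of_mem (x := u 0) (W.neg_mem (W.smul_mem α⁻¹ hw))
            rwa [dist_eq_norm, sub_neg_eq_add] at this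
          have h5 : ‖α • u 0 + w‖ = |α| * ‖u 0 + α⁻¹ • w‖ := by
            rw [← Real.norm_eq_abs, ← norm_smul, smul_add, smul_smul, mul_inv_cancel₀ hα0, one_smul]
          rw [h5]
          have h6 : 0 ≤ |α| := abs_nonneg _
          nlinarith
        set b := α • u 0 + w with hb'
        have hw' : b - (α * κ) • x₀ ∈ W := by
          have : b - (α * κ) • x₀ = w + α • w₀ := by
            rw [hb', hx₀, smul_smul, mul_assoc, mul_inv_cancel₀ hκ0.ne', mul_one, smul_sub]
            abel
          rw [this]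
          exact W.add_mem hw (W.smul_mem _ hw₀)
        obtain ⟨c, hc1, hc2⟩ := hv2 _ hw'
        have hx₀n : ‖x₀‖ = 1 := by
          rw [hx₀, norm_smul, norm_inv, Real.norm_eq_abs, abs_of_pos hκ0, ← hκ,
            inv_mul_cancel₀ hκ0.ne']
        have hακ : |α * κ| ≤ 2 * ‖b‖ := by
          rw [abs_mul, abs_of_pos hκ0]; exact hα
        have hres : ‖b - (α * κ) • x₀‖ ≤ 3 * ‖b‖ := by
          calc ‖b - (α * κ) • x₀‖ ≤ ‖b‖ + ‖(α * κ) • x₀‖ := norm_sub_le _ _
            _ = ‖b‖ + |α * κ| := by rw [norm_smul, hx₀n, mul_one, Real.norm_eq_abs]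
            _ ≤ 3 * ‖b‖ := by linarith
        refine ⟨Fin.cons (α * κ) c, ?_, ?_⟩
        · rw [Fin.sum_univ_succ]
          simp only [Fin.cons_zero, Fin.cons_succ]
          rw [← hc1]
          abel
        · intro j
          have hb0 := norm_nonneg b
          refine Fin.cases ?_ (fun j => ?_) j
          · simp only [Fin.cons_zero]
            refine le_trans hακ ?_
            rw [pow_succ]
            nlinarith
          · simp only [Fin.cons_succ]
            refine le_trans (hc2 j) ?_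
            rw [pow_succ, mul_assoc]
            exact mul_le_mul_of_nonneg_left hres (by positivity)

/-- A set is of dimension at most `d`. -/
def DimLe (d : ℕ) (A : Set X) : Prop :=
  FiniteDimensional ℝ (vectorSpan ℝ A) ∧ Module.finrank ℝ (vectorSpan ℝ A) ≤ d

lemma DimLe.exists_span {d : ℕ} {A : Set X} (h : DimLe d A) (hne : A.Nonempty) :
    ∃ u : Fin (d + 1) → X, A ⊆ Submodule.span ℝ (Set.range u) := by
  obtain ⟨hfd, hfr⟩ := h
  obtain ⟨a₀, ha₀⟩ := hne
  set n := Module.finrank ℝ (vectorSpan ℝ A) with hn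
  have hb := Module.finBasis ℝ (vectorSpan ℝ A)
  rw [← hn] at hb
  refine ⟨Fin.cons a₀ (fun j : Fin d => if h : (j : ℕ) < n then (hb ⟨j, h⟩ : X) else 0), ?_⟩
  intro a ha
  have h1 : a - a₀ ∈ vectorSpan ℝ A := by
    simpa using vsub_mem_vectorSpan ℝ ha ha₀
  set p := (Fin.cons a₀ (fun j : Fin d => if h : (j : ℕ) < n then (hb ⟨j, h⟩ : X) else 0) :
    Fin (d + 1) → X) with hp
  have h2 : a₀ ∈ Submodule.span ℝ (Set.range p) := Submodule.subset_span ⟨0, by simp [hp]⟩
  have h3 : ∀ i : Fin n, (hb i : X) ∈ Submodule.span ℝ (Set.range p) := by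
    intro i
    refine Submodule.subset_span ⟨(⟨i, lt_of_lt_of_le i.2 hfr⟩ : Fin d).succ, ?_⟩
    rw [hp, Fin.cons_succ, dif_pos i.2]
  have h4 : (⟨a - a₀, h1⟩ : vectorSpan ℝ A) = ∑ i, hb.repr ⟨a - a₀, h1⟩ i • hb i :=
    (hb.sum_repr _).symm
  have h5 : a - a₀ = ∑ i, hb.repr ⟨a - a₀, h1⟩ i • (hb i : X) := by
    calc a - a₀ = ((⟨a - a₀, h1⟩ : vectorSpan ℝ A) : X) := rfl
      _ = ((∑ i, hb.repr ⟨a - a₀, h1⟩ i • hb i : vectorSpan ℝ A) : X) := by rw [← h4]
      _ = ∑ i, hb.repr ⟨a - a₀, h1⟩ i • (hb i : X) := by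
        rw [Submodule.coe_sum]
        rfl
  have h6 : a - a₀ ∈ Submodule.span ℝ (Set.range p) := by
    rw [h5]
    exact Submodule.sum_mem _ fun i _ => Submodule.smul_mem _ _ (h3 i)
  have := Submodule.add_mem _ h6 h2
  simpa using this

end Pool.Agent.Q298.Rset
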