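import Mathlib
import Pool.Agent.Q298.Rset.Signs
import Pool.Agent.Q298.Rset.Contr
import Pool.Agent.Q298.Rset.Symm
import Pool.Agent.Q298.Rset.Slln
import Pool.Agent.Q298.Rset.Supp

open Finset Filter Topology MeasureTheory ProbabilityTheory
open scoped Pointwise BoundedContinuousFunction

namespace Pool.Agent.Q298.Rset

variable {X : Type*} [NormedAddCommGroup X] [NormedSpace ℝ X]

/-- Rademacher averages of support functions of low dimensional sets. -/
lemma rad_bound {d m : ℕ} {r c : ℝ} (hr0 : 0 ≤ r) (hc : 0 ≤ c) (hT : T2 X (Fin m) (c ^ 2))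
    (A : Fin m → BC X) (hr : ∀ i, ∀ a ∈ (A i).carrier, ‖a‖ ≤ r)
    (hdim : ∀ i, DimLe d (A i).carrier) :
    av (fun ε => ‖∑ i, sg (ε i) • R (A i)‖) ≤
      2 * ((3 ^ (d + 1) * r * (d + 1)) * ((d + 1) * (c * m))) := by
  classical
  have hspan := fun i => (hdim i).exists_span (A i).nonempty
  choose u hu using hspan
  have hco := fun i => exists_coords (d + 1) (u i)
  choose v hv1 hv2 using hco
  set T := Metric.closedBall (0 : StrongDual ℝ X) 1 with hTdef
  have hT1 : ∀ t : T, ‖t.1‖ ≤ 1 := fun t => by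
    have := t.2
    rwa [mem_closedBall_zero_iff] at this
  have hTne : Nonempty T := ⟨⟨0, by simp [hTdef]⟩⟩
  set t₀ : T := ⟨0, by simp [hTdef]⟩ with ht₀
  set φ : Fin m → T → ℝ := fun i t => supp (A i).carrier t.1 with hφ
  set x : Fin m → Fin (d + 1) → T → ℝ := fun i j t => t.1 (v i j) with hx
  have hφb : ∀ i, Bd (φ i) := fun i => ⟨r, fun t => by
    refine le_trans (abs_supp_le (A i).nonempty (hr i) t.1) ?_
    have := hT1 t
    nlinarith⟩
  have hxb : ∀ i j, Bd (x i j) := fun i j => ⟨1, fun t => by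
    have h1 := t.1.le_opNorm (v i j)
    rw [Real.norm_eq_abs] at h1
    have h2 := hT1 t
    have h3 := hv1 i j
    have h4 := norm_nonneg (v i j)
    have h5 := norm_nonneg t.1
    exact le_trans h1 (by nlinarith)⟩
  set L : ℝ := 3 ^ (d + 1) * r with hL
  have hL0 : 0 ≤ L := by positivity
  have hlip : ∀ i s t, |φ i s - φ i t| ≤ L * ∑ j, |x i j s - x i j t| := by
    intro i s t
    refine supp_sub_le (A i).nonempty (hr i) s.1 t.1 fun a ha => ?_
    obtain ⟨cc, hc1, hc2⟩ := hv2 i a (hu i ha)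
    have h1 : s.1 a - t.1 a = ∑ j, cc j * (s.1 (v i j) - t.1 (v i j)) := by
      rw [hc1, map_sum, map_sum, ← Finset.sum_sub_distrib]
      refine Finset.sum_congr rfl fun j _ => ?_
      rw [map_smul, map_smul, smul_eq_mul, smul_eq_mul]
      ring
    rw [h1]
    calc |∑ j, cc j * (s.1 (v i j) - t.1 (v i j))|
        ≤ ∑ j, |cc j * (s.1 (v i j) - t.1 (v i j))| := Finset.abs_sum_le_sum_abs _ _
      _ ≤ ∑ j, L * |x i j s - x i j t| := by
        refine Finset.sum_le_sum fun j _ => ?_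
        rw [abs_mul]
        apply mul_le_mul_of_nonneg_right _ (abs_nonneg _)
        refine le_trans (hc2 j) ?_
        exact mul_le_mul_of_nonneg_left (hr i a ha) (by positivity)
      _ = L * ∑ j, |x i j s - x i j t| := by rw [Finset.mul_sum]
  have hcon := contraction (T := T) (J := Fin (d + 1)) hL0 m (fun _ => 0) φ x Bd.zero hφb hxb hlip
  simp only [zero_add, Fintype.card_fin] at hcon
  -- right side of the contraction inequality
  set K : ℝ := L * ((d + 1 : ℕ) : ℝ) with hK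
  have hK0 : 0 ≤ K := by positivity
  have hright : av (fun δ : Fin m × Fin (d + 1) → Bool =>
      ⨆ t : T, K * ∑ i, ∑ j, sg (δ (i, j)) * x i j t) ≤ K * ((d + 1) * (c * m)) := by
    calc av (fun δ : Fin m × Fin (d + 1) → Bool =>
          ⨆ t : T, K * ∑ i, ∑ j, sg (δ (i, j)) * x i j t)
        ≤ av (fun δ : Fin m × Fin (d + 1) → Bool =>
            K * ∑ j : Fin (d + 1), ‖∑ i : Fin m, sg (δ (i, j)) • v i j‖) := by
          refine av_mono fun δ => ciSup_le fun t => ?_
          apply mul_le_mul_of_nonneg_left _ hK0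
          rw [Finset.sum_comm]
          refine Finset.sum_le_sum fun j _ => ?_
          have h1 : ∑ i, sg (δ (i, j)) * x i j t = t.1 (∑ i : Fin m, sg (δ (i, j)) • v i j) := by
            rw [map_sum]
            refine Finset.sum_congr rfl fun i _ => ?_
            rw [map_smul, smul_eq_mul]
          rw [h1]
          calc t.1 (∑ i : Fin m, sg (δ (i, j)) • v i j)
              ≤ ‖t.1 (∑ i : Fin m, sg (δ (i, j)) • v i j)‖ := le_abs_self _
            _ ≤ ‖t.1‖ * ‖∑ i : Fin m, sg (δ (i, j)) • v i j‖ := t.1.le_opNorm _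
            _ ≤ 1 * ‖∑ i : Fin m, sg (δ (i, j)) • v i j‖ :=
              mul_le_mul_of_nonneg_right (hT1 t) (norm_nonneg _)
            _ = _ := one_mul _
      _ = K * ∑ j : Fin (d + 1), av (fun δ : Fin m × Fin (d + 1) → Bool =>
            ‖∑ i : Fin m, sg (δ (i, j)) • v i j‖) := by
          rw [av_mul, av_sum]
      _ = K * ∑ j : Fin (d + 1), av (fun ε : Fin m → Bool =>
            ‖∑ i : Fin m, sg (ε i) • v i j‖) := by
          congr 1
          refine Finset.sum_congr rfl fun j _ => ?_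
          exact av_comp (fun i : Fin m => (i, j)) (fun a b hab => by simpa using hab)
            (fun ε : Fin m → Bool => ‖∑ i : Fin m, sg (ε i) • v i j‖)
      _ ≤ K * ∑ _j : Fin (d + 1), c * 1 * m := by
          apply mul_le_mul_of_nonneg_left _ hK0
          refine Finset.sum_le_sum fun j _ => ?_
          exact hT.first hc zero_le_one (fun i => v i j) (fun i => hv1 i j)
      _ = K * ((d + 1) * (c * m)) := by
          simp
  have hS : av (fun ε : Fin m → Bool => ⨆ t : T, ∑ i, sg (ε i) * φ i t) ≤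
      K * ((d + 1) * (c * m)) := le_trans hcon hright
  -- pass to norms
  have hbd : ∀ ε : Fin m → Bool, Bd (fun t : T => ∑ i, sg (ε i) * φ i t) := fun ε =>
    Bd.sum _ fun i _ => (hφb i).mul_const _
  have hzero : ∀ ε : Fin m → Bool, 0 ≤ ⨆ t : T, ∑ i, sg (ε i) * φ i t := by
    intro ε
    have h1 := (hbd ε).le_sup t₀
    have h2 : ∑ i, sg (ε i) * φ i t₀ = 0 := by
      refine Finset.sum_eq_zero fun i _ => ?_
      simp only [hφ, ht₀]
      rw [supp_zero (A i).nonempty, mul_zero]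
    linarith
  have hnorm : ∀ ε : Fin m → Bool, ‖∑ i, sg (ε i) • R (A i)‖ ≤
      (⨆ t : T, ∑ i, sg (ε i) * φ i t) + ⨆ t : T, ∑ i, sg (!(ε i)) * φ i t := by
    intro ε
    rw [BoundedContinuousFunction.norm_le (add_nonneg (hzero ε) (hzero fun i => !(ε i)))]
    intro f
    have hf : f.1 ∈ T := by
      have := f.2
      rw [mem_sphere_zero_iff_norm] at this
      rw [hTdef, mem_closedBall_zero_iff]
      exact this.le
    have h1 : (∑ i, sg (ε i) • R (A i)) f = ∑ i, sg (ε i) * φ i ⟨f.1, hf⟩ := by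
      rw [BoundedContinuousFunction.coe_sum, Finset.sum_apply]
      rfl
    rw [h1, Real.norm_eq_abs]
    have h2 := (hbd ε).le_sup ⟨f.1, hf⟩
    have h3 := (hbd (fun i => !(ε i))).le_sup ⟨f.1, hf⟩
    have h4 : ∑ i, sg (!(ε i)) * φ i ⟨f.1, hf⟩ = -∑ i, sg (ε i) * φ i ⟨f.1, hf⟩ := by
      simp_rw [sg_not, neg_mul, Finset.sum_neg_distrib]
    have h5 := hzero ε
    have h6 := hzero fun i => !(ε i)
    rw [h4] at h3
    rw [abs_le]
    constructor <;> linarith
  calc av (fun ε => ‖∑ i, sg (ε i) • R (A i)‖)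
      ≤ av (fun ε : Fin m → Bool => (⨆ t : T, ∑ i, sg (ε i) * φ i t) +
          ⨆ t : T, ∑ i, sg (!(ε i)) * φ i t) := av_mono hnorm
    _ = av (fun ε : Fin m → Bool => ⨆ t : T, ∑ i, sg (ε i) * φ i t) +
        av (fun ε : Fin m → Bool => ⨆ t : T, ∑ i, sg (!(ε i)) * φ i t) := av_add _ _
    _ = av (fun ε : Fin m → Bool => ⨆ t : T, ∑ i, sg (ε i) * φ i t) +
        av (fun ε : Fin m → Bool => ⨆ t : T, ∑ i, sg (ε i) * φ i t) := by
        rw [av_neg (fun ε : Fin m → Bool => ⨆ t : T, ∑ i, sg (ε i) * φ i t)]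
    _ ≤ 2 * ((3 ^ (d + 1) * r * (d + 1)) * ((d + 1) * (c * m))) := by
        rw [hK, hL] at hS
        push_cast at hS
        linarith

attribute [local instance] Classical.propDecidable

/-- The strong law for random sets of dimension at most `d`. -/
theorem slln_sets (hB : BConvex X) (d : ℕ) {Ω : Type*} [MeasurableSpace Ω] (P : Measure Ω)
    [IsProbabilityMeasure P] [MeasurableSpace (Sph X →ᵇ ℝ)] [BorelSpace (Sph X →ᵇ ℝ)]
    (Ψ : ℕ → Ω → BC X) (U : ℕ → BC X)
    (hmeas : ∀ n, Measurable (fun ω => R (Ψ n ω)))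
    (hint : ∀ n, Integrable (fun ω => R (Ψ n ω)) P)
    (hE : ∀ n, ∫ ω, R (Ψ n ω) ∂P = R (U n))
    (hind : iIndepFun (fun n ω => R (Ψ n ω)) P)
    {C : ℝ} (hC : ∀ n ω, ∀ a ∈ (Ψ n ω).carrier, ‖a‖ ≤ C)
    (hdim : ∀ n ω, DimLe d (Ψ n ω).carrier) :
    ∀ᵐ ω ∂P, Tendsto (fun n : ℕ => Metric.hausdorffDist
      ((n : ℝ)⁻¹ • ∑ i ∈ range n, (Ψ i ω).carrier) ((n : ℝ)⁻¹ • ∑ i ∈ range n, (U i).carrier))
      atTop (𝓝 0) := by
  have hΩ : Nonempty Ω := by
    by_contra h
    rw [not_nonempty_iff] at h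
    have := measure_univ (μ := P)
    rw [Measure.eq_zero_of_isEmpty P] at this
    simp at this
  obtain ⟨ω₀⟩ := hΩ
  have hC0 : 0 ≤ C := by
    obtain ⟨a, ha⟩ := (Ψ 0 ω₀).nonempty
    exact le_trans (norm_nonneg _) (hC 0 ω₀ a ha)
  have hRC : ∀ n ω, ‖R (Ψ n ω)‖ ≤ C := by
    intro n ω
    rw [BoundedContinuousFunction.norm_le hC0]
    intro f
    have h := abs_supp_le (Ψ n ω).nonempty (hC n ω) f.1
    have hf : ‖f.1‖ = 1 := by
      have := f.2
      rwa [mem_sphere_zero_iff_norm] at this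
    rw [hf, mul_one] at h
    exact h
  have hblock : ∀ β : ℝ, 0 < β → ∃ m : ℕ, 0 < m ∧ ∀ (s : Fin m → ℕ) (ω : Ω),
      av (fun ε => ‖∑ k, sg (ε k) • R (Ψ (s k) ω)‖) ≤ β * m := by
    intro β hβ
    set Q : ℝ := 2 * (3 ^ (d + 1) * C * (d + 1) * (d + 1)) + 1 with hQ
    have hQ0 : 0 < Q := by positivity
    obtain ⟨m, hm, hTm⟩ := hB.small (c := (β / Q) ^ 2) (by positivity)
    refine ⟨m, hm, fun s ω => ?_⟩
    refine le_trans (rad_bound hC0 (by positivity) hTm (fun k => Ψ (s k) ω)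
      (fun k => hC _ _) (fun k => hdim _ _)) ?_
    have hmR : (0 : ℝ) ≤ m := by positivity
    calc 2 * ((3 ^ (d + 1) * C * (d + 1)) * ((d + 1) * (β / Q * m)))
        = (2 * (3 ^ (d + 1) * C * (d + 1) * (d + 1))) * (β / Q * m) := by ring
      _ ≤ Q * (β / Q * m) := by
          apply mul_le_mul_of_nonneg_right _ (by positivity)
          rw [hQ]; linarith
      _ = β * m := by field_simp
  have hmain := slln_banach (F := fun n ω => R (Ψ n ω)) hmeas hint hind hRC hblock
  filter_upwards [hmain] with ω hω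
  refine squeeze_zero (fun n => Metric.hausdorffDist_nonneg) (fun n => ?_) hω
  obtain ⟨A, hA1, hA2⟩ := exists_avg (fun i => Ψ i ω) n
  obtain ⟨B, hB1, hB2⟩ := exists_avg U n
  rw [← hA1, ← hB1]
  refine le_trans (hausdorffDist_le A B) (le_of_eq ?_)
  have hsub : (n : ℝ)⁻¹ • ∑ i ∈ range n, R (Ψ i ω) - (n : ℝ)⁻¹ • ∑ i ∈ range n, R (U i) =
      (n : ℝ)⁻¹ • ∑ i ∈ range n, (R (Ψ i ω) - R (U i)) := by
    rw [Finset.sum_sub_distrib]
    exact (smul_sub _ _ _).symm
  rw [hA2, hB2, hsub]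
  simp_rw [hE]
  rw [norm_smul, Real.norm_eq_abs, abs_of_nonneg (by positivity)]

end Pool.Agent.Q298.Rset
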